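import Pool.Agent.Q246.NR.Rel

/-!
# Polynomials as sums over a box of exponents
-/

set_option autoImplicit false

namespace Pool.Agent.Q246.NR

/-- the exponent of a point of the box -/
noncomputable def toB {n D : ℕ} (e : Fin n → Fin (D + 1)) : Fin n →₀ ℕ :=
  Finsupp.equivFunOnFinite.symm fun i => (e i : ℕ)

lemma toB_apply {n D : ℕ} (e : Fin n → Fin (D + 1)) (i : Fin n) : toB e i = (e i : ℕ) := rfl

lemma toB_inj {n D : ℕ} {e e' : Fin n → Fin (D + 1)} (h : toB e = toB e') : e = e' := by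
  funext i
  have := DFunLike.congr_fun h i
  exact Fin.ext this

lemma toB_surj {n D : ℕ} {S : Type} [CommSemiring S] (P : MvPolynomial (Fin n) S) (hP : P.totalDegree ≤ D)
    (d : Fin n →₀ ℕ) (hd : d ∈ P.support) : ∃ e : Fin n → Fin (D + 1), toB e = d := by
  have h1 : (d.sum fun _ k => k) ≤ D := (MvPolynomial.le_totalDegree hd).trans hP
  have h2 : ∑ i, d i ≤ D := by
    rwa [Finsupp.sum_fintype _ _ (fun _ => rfl)] at h1
  have hi : ∀ i, d i < D + 1 := fun i => by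
    have := Finset.single_le_sum (f := fun i => d i) (fun _ _ => Nat.zero_le _) (Finset.mem_univ i)
    omega
  refine ⟨fun i => ⟨d i, hi i⟩, ?_⟩
  ext s
  rfl

lemma eval_box {n D : ℕ} {S S' : Type} [CommSemiring S] [CommSemiring S'] (φ : S →+* S')
    (P : MvPolynomial (Fin n) S) (hP : P.totalDegree ≤ D) (x : Fin n → S') :
    MvPolynomial.eval₂ φ x P = ∑ e : Fin n → Fin (D + 1), φ (P.coeff (toB e)) * ∏ s, x s ^ (e s : ℕ) := by
  classical
  rw [MvPolynomial.eval₂_eq']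
  have h1 : ∑ d ∈ P.support, φ (P.coeff d) * ∏ i, x i ^ d i =
      ∑ d ∈ Finset.univ.image (toB (n := n) (D := D)), φ (P.coeff d) * ∏ i, x i ^ d i := by
    refine Finset.sum_subset ?_ ?_
    · intro d hd
      obtain ⟨e, he⟩ := toB_surj P hP d hd
      exact Finset.mem_image.2 ⟨e, Finset.mem_univ _, he⟩
    · intro d _ hd
      rw [MvPolynomial.notMem_support_iff.1 hd]
      simp
  rw [h1, Finset.sum_image (fun a _ b _ h => toB_inj h)]
  rfl

/-- a polynomial whose value is small compared with a coefficient gives a near relation -/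
lemma rel_of_poly {g : ℕ} {ι : Type} [Fintype ι] (d : ℕ) (H δ : ℝ) (ζ : Fin g → ℂ) (c : ι → MvPolynomial (Fin g) ℤ)
    (hc : ∀ l, (c l).totalDegree ≤ d) (hcH : ∀ l f, |(((c l).coeff f : ℤ) : ℝ)| ≤ H) (m : ι → ℂ) (l₀ : ι)
    (h0 : MvPolynomial.aeval ζ (c l₀) ≠ 0)
    (h : ‖∑ l, MvPolynomial.aeval ζ (c l) * m l‖ ≤ δ * ‖MvPolynomial.aeval ζ (c l₀)‖) :
    RelA (fun f : Fin g → Fin (d + 1) => ∏ s, ζ s ^ (f s : ℕ)) m H δ := by
  have h1 : ∀ l, ∑ f : Fin g → Fin (d + 1), (∏ s, ζ s ^ (f s : ℕ)) * (((c l).coeff (toB f) : ℤ) : ℂ) =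
      MvPolynomial.aeval ζ (c l) := by
    intro l
    rw [MvPolynomial.aeval_def, eval_box _ (c l) (hc l) ζ]
    refine Finset.sum_congr rfl fun f _ => ?_
    rw [eq_intCast, mul_comm]
  refine ⟨fun l f => (c l).coeff (toB f), fun l f => hcH l _, l₀, ?_, ?_⟩
  · rw [h1]
    exact h0
  · simp only [h1]
    exact h

end Pool.Agent.Q246.NR
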