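import Mathlib

/-!
# From one height to many heights
-/

set_option autoImplicit false

namespace Pool.Agent.Q246.NR

open Classical in
theorem scales {Z α : Type} (X : ℕ → Finset α) (G G' : Z → α → ℝ → Prop)
    (hG : ∀ z x H H', 1 ≤ H → H ≤ H' → H' ≤ H ^ 2 → G z x H' → G' z x H) (k : ℕ) (C c : ℝ) (hC : 0 ≤ C)
    (hc : 0 < c) (hX : ∀ T, ((X T).card : ℝ) ≤ (T : ℝ) ^ k)
    (h : ∀ T : ℕ, 1 ≤ T → ∃ H₀ : ℝ, ∀ H : ℝ, H₀ ≤ H → ∀ z : Z,
      ((((X T).filter fun x => ¬ G z x H).card : ℕ) : ℝ) ≤ C * (T : ℝ) ^ ((k : ℝ) - c)) (T : ℕ) (hT : 1 ≤ T) :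
    (∃ H₀ : ℝ, ∀ H₁ : ℝ, H₀ ≤ H₁ → ∀ z : Z,
      ((((X T).filter fun x => ¬ ∀ H, H₁ ≤ H → H ≤ H₁ ^ Real.exp ((T : ℝ) ^ (c / 2)) → G' z x H).card : ℕ) : ℝ) ≤
        (4 * C + 1) * (T : ℝ) ^ ((k : ℝ) - c / 2)) ∧
    ∀ z : Z, ((((X T).filter fun x => ¬ ∀ N₀ : ℕ, ∃ N, N₀ ≤ N ∧
      ((((Finset.range N).filter fun j : ℕ => ¬ ∀ H : ℝ, 2 ^ (2 ^ j) ≤ H → H ≤ 2 ^ (2 ^ (j + 1)) → G' z x H).card : ℕ) : ℝ) ≤
        (T : ℝ) ^ (-(c / 2)) * N).card : ℕ) : ℝ) ≤ (4 * C + 1) * (T : ℝ) ^ ((k : ℝ) - c / 2) := by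
  have hTR : (1 : ℝ) ≤ T := by exact_mod_cast hT
  have hTp : (0 : ℝ) < T := by linarith
  obtain ⟨H₀, hH₀⟩ := h T hT
  have hTc : 1 ≤ (T : ℝ) ^ (c / 2) := Real.one_le_rpow hTR (by linarith)
  have hTk : 0 ≤ (T : ℝ) ^ ((k : ℝ) - c / 2) := Real.rpow_nonneg hTp.le _
  have hsplit : (T : ℝ) ^ (c / 2) * (T : ℝ) ^ ((k : ℝ) - c) = (T : ℝ) ^ ((k : ℝ) - c / 2) := by
    rw [← Real.rpow_add hTp]
    congr 1
    ring
  refine ⟨⟨max H₀ 2, fun H₁ hH₁ z => ?_⟩, fun z => ?_⟩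
  · have hH₁₀ : H₀ ≤ H₁ := (le_max_left _ _).trans hH₁
    have hH₁2 : 2 ≤ H₁ := (le_max_right _ _).trans hH₁
    have hH₁1 : 1 ≤ H₁ := by linarith
    set J : ℕ := ⌈(T : ℝ) ^ (c / 2) / Real.log 2⌉₊ with hJ
    have hlog2 : 0 < Real.log 2 := Real.log_pos (by norm_num)
    have hexp : Real.exp ((T : ℝ) ^ (c / 2)) ≤ 2 ^ J := by
      have h1 : (T : ℝ) ^ (c / 2) ≤ J * Real.log 2 := by
        rw [← div_le_iff₀ hlog2]
        exact Nat.le_ceil _
      calc Real.exp ((T : ℝ) ^ (c / 2)) ≤ Real.exp (J * Real.log 2) := Real.exp_le_exp.2 h1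
        _ = 2 ^ J := by
            rw [mul_comm, Real.exp_mul, Real.exp_log (by norm_num), Real.rpow_natCast]
    have hsub : ((X T).filter fun x => ¬ ∀ H, H₁ ≤ H → H ≤ H₁ ^ Real.exp ((T : ℝ) ^ (c / 2)) → G' z x H) ⊆
        (Finset.range (J + 1)).biUnion fun j => (X T).filter fun x => ¬ G z x (H₁ ^ (2 ^ (j + 1))) := by
      intro x hx
      rw [Finset.mem_filter] at hx
      obtain ⟨hxX, hx⟩ := hx
      by_contra hcon
      apply hx
      intro H hHl hHu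
      have hgood : ∀ j < J + 1, G z x (H₁ ^ (2 ^ (j + 1))) := by
        intro j hj
        by_contra hg
        exact hcon (Finset.mem_biUnion.2 ⟨j, Finset.mem_range.2 hj, Finset.mem_filter.2 ⟨hxX, hg⟩⟩)
      have hH1 : 1 ≤ H := hH₁1.trans hHl
      have hHJ : H ≤ H₁ ^ (2 ^ J) := by
        refine hHu.trans ?_
        rw [← Real.rpow_natCast]
        refine Real.rpow_le_rpow_of_exponent_le hH₁1 ?_
        push_cast
        exact hexp
      have hex : ∃ i : ℕ, H ≤ H₁ ^ (2 ^ i) := ⟨J, hHJ⟩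
      have hi := Nat.find_spec hex
      have hiJ : Nat.find hex ≤ J := Nat.find_min' hex hHJ
      rcases Nat.eq_zero_or_pos (Nat.find hex) with h0 | h0
      · rw [h0, pow_zero, pow_one] at hi
        have hHe : H = H₁ := le_antisymm hi hHl
        refine hG z x H (H₁ ^ (2 ^ (0 + 1))) hH1 ?_ ?_ (hgood 0 (by omega))
        · rw [hHe]
          exact le_self_pow₀ hH₁1 (by norm_num)
        · rw [hHe]
          norm_num
      · obtain ⟨i, hi'⟩ : ∃ i, Nat.find hex = i + 1 := ⟨Nat.find hex - 1, by omega⟩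
        rw [hi'] at hi hiJ
        have hlt := Nat.find_min hex (show i < Nat.find hex by omega)
        rw [not_le] at hlt
        refine hG z x H (H₁ ^ (2 ^ (i + 1))) hH1 hi ?_ (hgood i (by omega))
        rw [pow_succ 2 i, pow_mul]
        exact pow_le_pow_left₀ (by positivity) hlt.le 2
    have hJ4 : ((J + 1 : ℕ) : ℝ) ≤ 4 * (T : ℝ) ^ (c / 2) := by
      have h1 : (J : ℝ) < (T : ℝ) ^ (c / 2) / Real.log 2 + 1 := Nat.ceil_lt_add_one (by positivity)
      have h2 : (T : ℝ) ^ (c / 2) / Real.log 2 ≤ 2 * (T : ℝ) ^ (c / 2) := by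
        rw [div_le_iff₀ hlog2]
        have : (0.6931471803 : ℝ) < Real.log 2 := Real.log_two_gt_d9
        nlinarith
      push_cast
      linarith
    calc ((((X T).filter fun x => ¬ ∀ H, H₁ ≤ H → H ≤ H₁ ^ Real.exp ((T : ℝ) ^ (c / 2)) → G' z x H).card : ℕ) : ℝ)
        ≤ (((Finset.range (J + 1)).biUnion fun j => (X T).filter fun x => ¬ G z x (H₁ ^ (2 ^ (j + 1)))).card : ℝ) := by
          exact_mod_cast Finset.card_le_card hsub
      _ ≤ ∑ j ∈ Finset.range (J + 1), ((((X T).filter fun x => ¬ G z x (H₁ ^ (2 ^ (j + 1)))).card : ℕ) : ℝ) := by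
          exact_mod_cast Finset.card_biUnion_le
      _ ≤ ∑ _j ∈ Finset.range (J + 1), C * (T : ℝ) ^ ((k : ℝ) - c) := by
          refine Finset.sum_le_sum fun j _ => hH₀ _ ?_ z
          exact hH₁₀.trans (le_self_pow₀ hH₁1 (by positivity))
      _ = ((J + 1 : ℕ) : ℝ) * (C * (T : ℝ) ^ ((k : ℝ) - c)) := by
          rw [Finset.sum_const, Finset.card_range, nsmul_eq_mul]
      _ ≤ (4 * (T : ℝ) ^ (c / 2)) * (C * (T : ℝ) ^ ((k : ℝ) - c)) :=
          mul_le_mul_of_nonneg_right hJ4 (mul_nonneg hC (Real.rpow_nonneg hTp.le _))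
      _ = 4 * C * (T : ℝ) ^ ((k : ℝ) - c / 2) := by rw [← hsplit]; ring
      _ ≤ _ := mul_le_mul_of_nonneg_right (by linarith) hTk
  · -- the density version
    set b : ℕ → α → Prop := fun j x => ¬ ∀ H : ℝ, 2 ^ (2 ^ j) ≤ H → H ≤ 2 ^ (2 ^ (j + 1)) → G' z x H with hb
    obtain ⟨j₀, hj₀⟩ : ∃ j₀ : ℕ, H₀ ≤ (2 : ℝ) ^ (2 ^ (j₀ + 1)) := by
      obtain ⟨n, hn⟩ := pow_unbounded_of_one_lt H₀ (show (1 : ℝ) < 2 by norm_num)
      refine ⟨n, hn.le.trans ?_⟩
      refine pow_le_pow_right₀ (by norm_num) ?_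
      exact (Nat.lt_two_pow_self (n := n)).le.trans (Nat.pow_le_pow_right (by norm_num) (by omega))
    have hbG : ∀ j x, b j x → ¬ G z x ((2 : ℝ) ^ (2 ^ (j + 1))) := by
      intro j x hbx hg
      apply hbx
      intro H hHl hHu
      refine hG z x H _ ((one_le_pow₀ (by norm_num)).trans hHl) hHu ?_ hg
      rw [pow_succ 2 j, pow_mul]
      exact pow_le_pow_left₀ (by positivity) hHl 2
    have hbc : ∀ j, j₀ ≤ j → ((((X T).filter fun x => b j x).card : ℕ) : ℝ) ≤ C * (T : ℝ) ^ ((k : ℝ) - c) := by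
      intro j hj
      refine le_trans ?_ (hH₀ ((2 : ℝ) ^ (2 ^ (j + 1))) ?_ z)
      · have : ((X T).filter fun x => b j x) ⊆ ((X T).filter fun x => ¬ G z x ((2 : ℝ) ^ (2 ^ (j + 1)))) := by
          intro x hx
          rw [Finset.mem_filter] at hx ⊢
          exact ⟨hx.1, hbG j x hx.2⟩
        exact_mod_cast Finset.card_le_card this
      · refine hj₀.trans (pow_le_pow_right₀ (by norm_num) (Nat.pow_le_pow_right (by norm_num) (by omega)))
    set E : Finset α := (X T).filter fun x => ¬ ∀ N₀ : ℕ, ∃ N, N₀ ≤ N ∧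
      ((((Finset.range N).filter fun j : ℕ => b j x).card : ℕ) : ℝ) ≤ (T : ℝ) ^ (-(c / 2)) * N with hE
    have hEx : ∀ x ∈ E, ∃ N₀ : ℕ, ∀ N, N₀ ≤ N → (T : ℝ) ^ (-(c / 2)) * N <
        ((((Finset.range N).filter fun j : ℕ => b j x).card : ℕ) : ℝ) := by
      intro x hx
      obtain ⟨N₀, h2⟩ := not_forall.1 (Finset.mem_filter.1 hx).2
      refine ⟨N₀, fun N hN => ?_⟩
      by_contra h3
      exact h2 ⟨N, hN, not_lt.1 h3⟩
    choose! N₀ hN₀ using hEx
    set N : ℕ := ∑ x ∈ E, N₀ x + ⌈(j₀ : ℝ) * (T : ℝ) ^ c⌉₊ + 1 with hN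
    have hN1 : 1 ≤ N := by omega
    have hNR : (0 : ℝ) < N := by exact_mod_cast hN1
    have hNx : ∀ x ∈ E, N₀ x ≤ N := by
      intro x hx
      have h1 : N₀ x ≤ ∑ x ∈ E, N₀ x := Finset.single_le_sum (f := fun x => N₀ x) (fun _ _ => Nat.zero_le _) hx
      omega
    have hNj : (j₀ : ℝ) * (T : ℝ) ^ c ≤ N := by
      refine (Nat.le_ceil _).trans ?_
      exact_mod_cast (by omega : ⌈(j₀ : ℝ) * (T : ℝ) ^ c⌉₊ ≤ N)
    have hlow : (E.card : ℝ) * ((T : ℝ) ^ (-(c / 2)) * N) ≤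
        ∑ x ∈ E, ((((Finset.range N).filter fun j : ℕ => b j x).card : ℕ) : ℝ) := by
      rw [← nsmul_eq_mul, ← Finset.sum_const]
      exact Finset.sum_le_sum fun x hx => (hN₀ x hx N (hNx x hx)).le
    have hdc : ∑ x ∈ E, ((((Finset.range N).filter fun j : ℕ => b j x).card : ℕ) : ℝ) =
        ∑ j ∈ Finset.range N, (((E.filter fun x => b j x).card : ℕ) : ℝ) := by
      simp only [Finset.card_filter]
      push_cast
      rw [Finset.sum_comm]
    have hup : ∑ j ∈ Finset.range N, (((E.filter fun x => b j x).card : ℕ) : ℝ) ≤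
        j₀ * (T : ℝ) ^ k + N * (C * (T : ℝ) ^ ((k : ℝ) - c)) := by
      have h1 : ∀ j ∈ Finset.range N, (((E.filter fun x => b j x).card : ℕ) : ℝ) ≤
          (if j < j₀ then (T : ℝ) ^ k else 0) + C * (T : ℝ) ^ ((k : ℝ) - c) := by
        intro j _
        have hCT : 0 ≤ C * (T : ℝ) ^ ((k : ℝ) - c) := mul_nonneg hC (Real.rpow_nonneg hTp.le _)
        have hEX : E ⊆ X T := Finset.filter_subset _ _
        split_ifs with hj
        · have h2 : (((E.filter fun x => b j x).card : ℕ) : ℝ) ≤ ((X T).card : ℝ) := by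
            exact_mod_cast Finset.card_le_card ((Finset.filter_subset _ _).trans hEX)
          linarith [hX T]
        · have h2 : (((E.filter fun x => b j x).card : ℕ) : ℝ) ≤ ((((X T).filter fun x => b j x).card : ℕ) : ℝ) := by
            exact_mod_cast Finset.card_le_card (Finset.filter_subset_filter _ hEX)
          linarith [hbc j (by omega)]
      refine (Finset.sum_le_sum h1).trans ?_
      rw [Finset.sum_add_distrib, Finset.sum_const, Finset.card_range, nsmul_eq_mul]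
      have h2 : ∑ j ∈ Finset.range N, (if j < j₀ then (T : ℝ) ^ k else 0) ≤ j₀ * (T : ℝ) ^ k := by
        rw [← Finset.sum_filter, Finset.sum_const, nsmul_eq_mul]
        refine mul_le_mul_of_nonneg_right ?_ (by positivity)
        have h3 : ((Finset.range N).filter fun j => j < j₀) ⊆ Finset.range j₀ := by
          intro j hj
          exact Finset.mem_range.2 (Finset.mem_filter.1 hj).2
        have h4 := Finset.card_le_card h3
        rw [Finset.card_range] at h4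
        exact_mod_cast h4
      linarith
    have hjT : (j₀ : ℝ) * (T : ℝ) ^ k ≤ N * (T : ℝ) ^ ((k : ℝ) - c) := by
      have h1 : (T : ℝ) ^ k = (T : ℝ) ^ c * (T : ℝ) ^ ((k : ℝ) - c) := by
        rw [← Real.rpow_add hTp, ← Real.rpow_natCast]
        congr 1
        ring
      rw [h1, ← mul_assoc]
      exact mul_le_mul_of_nonneg_right hNj (Real.rpow_nonneg hTp.le _)
    have htot : (E.card : ℝ) * ((T : ℝ) ^ (-(c / 2)) * N) ≤ N * ((C + 1) * (T : ℝ) ^ ((k : ℝ) - c)) := by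
      calc (E.card : ℝ) * ((T : ℝ) ^ (-(c / 2)) * N) ≤ j₀ * (T : ℝ) ^ k + N * (C * (T : ℝ) ^ ((k : ℝ) - c)) :=
            hlow.trans (hdc.le.trans hup)
        _ ≤ N * (T : ℝ) ^ ((k : ℝ) - c) + N * (C * (T : ℝ) ^ ((k : ℝ) - c)) := by linarith
        _ = _ := by ring
    have h5 : (E.card : ℝ) * (T : ℝ) ^ (-(c / 2)) ≤ (C + 1) * (T : ℝ) ^ ((k : ℝ) - c) := by
      have h6 : (N : ℝ) * ((E.card : ℝ) * (T : ℝ) ^ (-(c / 2))) ≤ N * ((C + 1) * (T : ℝ) ^ ((k : ℝ) - c)) := by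
        calc _ = (E.card : ℝ) * ((T : ℝ) ^ (-(c / 2)) * N) := by ring
          _ ≤ _ := htot
      exact le_of_mul_le_mul_left h6 hNR
    have h7 : (T : ℝ) ^ (-(c / 2)) * (T : ℝ) ^ (c / 2) = 1 := by
      rw [← Real.rpow_add hTp]
      simp
    calc (E.card : ℝ) = ((E.card : ℝ) * (T : ℝ) ^ (-(c / 2))) * (T : ℝ) ^ (c / 2) := by
          rw [mul_assoc, h7, mul_one]
      _ ≤ ((C + 1) * (T : ℝ) ^ ((k : ℝ) - c)) * (T : ℝ) ^ (c / 2) :=
          mul_le_mul_of_nonneg_right h5 (by positivity)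
      _ = (C + 1) * (T : ℝ) ^ ((k : ℝ) - c / 2) := by rw [← hsplit]; ring
      _ ≤ _ := mul_le_mul_of_nonneg_right (by linarith) hTk

end Pool.Agent.Q246.NR
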