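import Pool.Agent.Y916.Al.Core

/-!
# The product formula for the determinant, with rows which are near relations
-/

set_option autoImplicit false

namespace Pool.Agent.Q246.NR

open Pool.Agent.Y916.Al

/-- the product formula for the determinant: the rows in `I` are near relations -/
theorem det3 {m N : ℕ} (K : IntermediateField ℚ ℂ) [FiniteDimensional ℚ K] (hm : Module.finrank ℚ K ≤ m)
    (M : Matrix (Fin N) (Fin N) K) (I : Finset (Fin N)) (i₀ : Fin N) (Y : Fin N → ℂ) (A Z L δ : ℝ) (hdet : M.det ≠ 0)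
    (hint : ∀ r j, IsIntegral ℤ (M r j)) (hY : Y i₀ = 1) (hA : 1 ≤ A) (hZ : 1 ≤ Z) (hL : 0 ≤ L) (hδ : 0 ≤ δ)
    (h0 : ∀ r ∈ I, ‖∑ j, (M r j : ℂ) * Y j‖ ≤ δ) (h1 : ∀ r, r ∉ I → ‖∑ j, (M r j : ℂ) * Y j‖ ≤ L)
    (hIA : ∀ r ∈ I, ∀ (j : Fin N) (σ : K →+* ℂ), ‖σ (M r j)‖ ≤ A)
    (hIZ : ∀ r, r ∉ I → ∀ (j : Fin N) (σ : K →+* ℂ), ‖σ (M r j)‖ ≤ Z) :
    Z ≤ N * (L + δ * Z) * (N.factorial * A ^ N * Z ^ (N - I.card)) ^ m := by
  classical
  have hIN : I.card ≤ N := by
    have := Finset.card_le_univ I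
    rwa [Fintype.card_fin] at this
  set B : ℝ := N.factorial * A ^ N * Z ^ (N - I.card) with hB
  have hA0 : 0 ≤ A := zero_le_one.trans hA
  have hZ0 : 0 ≤ Z := zero_le_one.trans hZ
  have hfac : (1 : ℝ) ≤ N.factorial := by exact_mod_cast Nat.succ_le_of_lt (Nat.factorial_pos N)
  have hB1 : 1 ≤ B := by
    have h2 : (1 : ℝ) ≤ A ^ N := one_le_pow₀ hA
    have h3 : (1 : ℝ) ≤ Z ^ (N - I.card) := one_le_pow₀ hZ
    rw [hB]
    exact one_le_mul_of_one_le_of_one_le (one_le_mul_of_one_le_of_one_le hfac h2) h3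
  -- all conjugates
  have hconj : ∀ σ : K →+* ℂ, ‖σ M.det‖ ≤ B := by
    intro σ
    rw [RingHom.map_det]
    refine (Pool.Agent.Y708.AL.det_boundC _ (fun r => if r ∈ I then A else Z) ?_).trans ?_
    · intro r j
      rw [RingHom.mapMatrix_apply, Matrix.map_apply]
      by_cases hr : r ∈ I
      · rw [if_pos hr]; exact hIA r hr j σ
      · rw [if_neg hr]; exact hIZ r hr j σ
    · rw [Pool.Agent.Y708.AL.prod_rows, hB, ← mul_assoc]
      exact mul_le_mul_of_nonneg_right (mul_le_mul_of_nonneg_left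
        (pow_le_pow_right₀ hA hIN) (by positivity)) (by positivity)
  -- the inclusion
  have hincl : ‖((M.det : K) : ℂ)‖ * Z ≤ N * (L + δ * Z) * B := by
    set R : Matrix (Fin N) (Fin N) ℂ := M.map (fun x : K => (x : ℂ)) with hR
    have hRd : R.det = ((M.det : K) : ℂ) := by
      have h2 := RingHom.map_det (algebraMap K ℂ) M
      rw [show ((M.det : K) : ℂ) = algebraMap K ℂ M.det from rfl, h2]
      rfl
    have h2 : R.det * Y i₀ = ∑ r, R.adjugate i₀ r * (R.mulVec Y) r := by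
      have h3 : R.adjugate.mulVec (R.mulVec Y) = R.det • Y := by
        rw [Matrix.mulVec_mulVec, Matrix.adjugate_mul, Matrix.smul_mulVec, Matrix.one_mulVec]
      have := congrFun h3 i₀
      rw [Pi.smul_apply, smul_eq_mul] at this
      rw [← this]
      rfl
    rw [hY, mul_one] at h2
    rw [← hRd, h2]
    have hadj : ∀ r : Fin N, ‖R.adjugate i₀ r‖ ≤
        N.factorial * ∏ s : Fin N, (if s = r then (1 : ℝ) else if s ∈ I then A else Z) := by
      intro r
      rw [Matrix.adjugate_apply]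
      refine (Pool.Agent.Y708.AL.det_boundC _ (fun s => if s = r then 1 else if s ∈ I then A else Z) ?_)
      intro s j
      by_cases hs : s = r
      · rw [hs, Matrix.updateRow_self, if_pos rfl]
        by_cases hj : j = i₀
        · rw [hj, Pi.single_eq_same, norm_one]
        · rw [Pi.single_eq_of_ne hj, norm_zero]; norm_num
      · rw [Matrix.updateRow_ne hs, if_neg hs]
        by_cases hs2 : s ∈ I
        · rw [if_pos hs2]; exact hIA s hs2 j (algebraMap K ℂ)
        · rw [if_neg hs2]; exact hIZ s hs2 j (algebraMap K ℂ)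
    have hprod : ∀ r : Fin N, (∏ s : Fin N, (if s = r then (1 : ℝ) else if s ∈ I then A else Z)) *
        (if r ∈ I then A else Z) = ∏ s : Fin N, (if s ∈ I then A else Z) := by
      intro r
      rw [← Finset.mul_prod_erase Finset.univ _ (Finset.mem_univ r), if_pos rfl, one_mul,
        ← Finset.mul_prod_erase Finset.univ (fun s => if s ∈ I then A else Z) (Finset.mem_univ r), mul_comm]
      congr 1
      refine Finset.prod_congr rfl fun s hs => ?_
      rw [Finset.mem_erase] at hs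
      rw [if_neg hs.1]
    have hrows : N.factorial * ∏ s : Fin N, (if s ∈ I then A else Z) ≤ B := by
      rw [Pool.Agent.Y708.AL.prod_rows, hB, ← mul_assoc]
      exact mul_le_mul_of_nonneg_right (mul_le_mul_of_nonneg_left
        (pow_le_pow_right₀ hA hIN) (by positivity)) (by positivity)
    have hP0 : ∀ r : Fin N, 0 ≤ ∏ s : Fin N, (if s = r then (1 : ℝ) else if s ∈ I then A else Z) := fun r =>
      Finset.prod_nonneg fun s _ => by split_ifs <;> positivity
    have h3 : ∀ r : Fin N, ‖R.adjugate i₀ r * (R.mulVec Y) r‖ * Z ≤ B * (L + δ * Z) := by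
      intro r
      have hmv : (R.mulVec Y) r = ∑ j, ((M r j : K) : ℂ) * Y j := rfl
      rw [norm_mul, hmv]
      by_cases hr : r ∈ I
      · have h4 := hprod r
        rw [if_pos hr] at h4
        have h5 : ‖R.adjugate i₀ r‖ ≤ B := by
          refine (hadj r).trans (le_trans ?_ hrows)
          refine mul_le_mul_of_nonneg_left ?_ (by positivity)
          rw [← h4]
          exact le_mul_of_one_le_right (hP0 r) hA
        calc ‖R.adjugate i₀ r‖ * ‖∑ j, ((M r j : K) : ℂ) * Y j‖ * Z ≤ B * δ * Z := by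
              refine mul_le_mul_of_nonneg_right ?_ hZ0
              exact mul_le_mul h5 (h0 r hr) (norm_nonneg _) (by linarith)
          _ ≤ B * (L + δ * Z) := by nlinarith
      · have h4 := hprod r
        rw [if_neg hr] at h4
        have h5 : ‖R.adjugate i₀ r‖ * Z ≤ B := by
          refine le_trans ?_ hrows
          rw [← h4, ← mul_assoc]
          exact mul_le_mul_of_nonneg_right (hadj r) hZ0
        calc ‖R.adjugate i₀ r‖ * ‖∑ j, ((M r j : K) : ℂ) * Y j‖ * Z
            = (‖R.adjugate i₀ r‖ * Z) * ‖∑ j, ((M r j : K) : ℂ) * Y j‖ := by ring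
          _ ≤ B * L := mul_le_mul h5 (h1 r hr) (norm_nonneg _) (by linarith)
          _ ≤ B * (L + δ * Z) := by
              refine mul_le_mul_of_nonneg_left ?_ (by linarith)
              have := mul_nonneg hδ hZ0
              linarith
    calc ‖∑ r, R.adjugate i₀ r * (R.mulVec Y) r‖ * Z ≤ (∑ r, ‖R.adjugate i₀ r * (R.mulVec Y) r‖) * Z :=
          mul_le_mul_of_nonneg_right (norm_sum_le _ _) hZ0
      _ = ∑ r, ‖R.adjugate i₀ r * (R.mulVec Y) r‖ * Z := Finset.sum_mul _ _ _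
      _ ≤ ∑ _r : Fin N, B * (L + δ * Z) := Finset.sum_le_sum fun r _ => h3 r
      _ = N * (L + δ * Z) * B := by
          rw [Finset.sum_const, Finset.card_univ, Fintype.card_fin, nsmul_eq_mul]; ring
  -- the norm
  have hI : IsIntegral ℤ M.det := IsIntegral.det hint
  have hn0 : Algebra.norm ℚ M.det ≠ 0 := Algebra.norm_ne_zero_iff.2 hdet
  obtain ⟨z, hz⟩ := IsIntegrallyClosed.isIntegral_iff.1 (Algebra.isIntegral_norm ℚ hI)
  have hz0 : z ≠ 0 := by
    intro h
    rw [h, map_zero] at hz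
    exact hn0 hz.symm
  have hnorm : (1 : ℝ) ≤ ‖algebraMap ℚ ℂ (Algebra.norm ℚ M.det)‖ := by
    rw [← hz]
    have h2 : algebraMap ℚ ℂ (algebraMap ℤ ℚ z) = (z : ℂ) := by simp
    rw [h2, Complex.norm_intCast]
    exact_mod_cast Int.one_le_abs hz0
  rw [Algebra.norm_eq_prod_embeddings ℚ ℂ M.det, norm_prod] at hnorm
  have hcard : Fintype.card (K →ₐ[ℚ] ℂ) = Module.finrank ℚ K := AlgHom.card ℚ K ℂ
  have hσ₀ : (K.val : K →ₐ[ℚ] ℂ) ∈ (Finset.univ : Finset (K →ₐ[ℚ] ℂ)) := Finset.mem_univ _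
  have hnorm' : (1 : ℝ) ≤ ∏ σ ∈ (Finset.univ : Finset (K →ₐ[ℚ] ℂ)), ‖σ M.det‖ := by
    refine hnorm.trans_eq ?_
    refine Finset.prod_congr ?_ fun _ _ => rfl
    ext σ
    simp
  have hnorm'' : (1 : ℝ) ≤ ‖(K.val : K →ₐ[ℚ] ℂ) M.det‖ *
      ∏ σ ∈ Finset.univ.erase (K.val : K →ₐ[ℚ] ℂ), ‖σ M.det‖ := by
    refine hnorm'.trans_eq ?_
    exact (Finset.mul_prod_erase Finset.univ (fun σ : K →ₐ[ℚ] ℂ => ‖σ M.det‖) hσ₀).symm
  have hle : ∏ σ ∈ Finset.univ.erase (K.val : K →ₐ[ℚ] ℂ), ‖σ M.det‖ ≤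
      B ^ (Module.finrank ℚ K - 1) := by
    have h2 : (Finset.univ.erase (K.val : K →ₐ[ℚ] ℂ)).card = Module.finrank ℚ K - 1 := by
      have h3 : (Finset.univ : Finset (K →ₐ[ℚ] ℂ)).card = Module.finrank ℚ K := by
        rw [Finset.card_univ, hcard]
      rw [← h3]
      exact Finset.card_erase_of_mem hσ₀
    rw [← h2, ← Finset.prod_const]
    exact Finset.prod_le_prod (fun _ _ => norm_nonneg _) fun σ _ => hconj (σ : K →+* ℂ)
  have hfr : 1 ≤ Module.finrank ℚ K := Module.finrank_pos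
  have hB0 : 0 ≤ B := by linarith
  have hNL : 0 ≤ N * (L + δ * Z) := by positivity
  have hK1 : ‖(K.val : K →ₐ[ℚ] ℂ) M.det‖ = ‖((M.det : K) : ℂ)‖ := rfl
  calc Z = 1 * Z := (one_mul Z).symm
    _ ≤ (‖((M.det : K) : ℂ)‖ * B ^ (Module.finrank ℚ K - 1)) * Z := by
        refine mul_le_mul_of_nonneg_right (hnorm''.trans ?_) hZ0
        rw [hK1]
        exact mul_le_mul_of_nonneg_left hle (norm_nonneg _)
    _ = (‖((M.det : K) : ℂ)‖ * Z) * B ^ (Module.finrank ℚ K - 1) := by ring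
    _ ≤ (N * (L + δ * Z) * B) * B ^ (Module.finrank ℚ K - 1) := mul_le_mul_of_nonneg_right hincl (by positivity)
    _ = N * (L + δ * Z) * B ^ (Module.finrank ℚ K) := by
        rw [mul_assoc, ← pow_succ', Nat.sub_add_cancel hfr]
    _ ≤ N * (L + δ * Z) * B ^ m :=
        mul_le_mul_of_nonneg_left (pow_le_pow_right₀ hB1 hm) hNL

end Pool.Agent.Q246.NR
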