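import Pool.Agent.Y916.Al.GK
import Pool.Agent.Q246.NR.Core

/-!
# G-systems at algebraic points: near relations of arbitrary height

The quantitative form of `Pool.Agent.Y916.Al.t_GK`: if `R` independent integer vectors with conjugates at most `A₁`
are relations up to `δ` and `2 A m (N - R) ≤ N`, then `δ ≥ c A₁ ^ (- Bx)`, where `Bx` depends only on `m, A, N, q`.
-/

set_option autoImplicit false

open PowerSeries

namespace Pool.Agent.Q246.NR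

open Pool.Agent.Y113 Pool.Agent.Y916.Al

theorem GKN (m A N q : ℕ) : ∃ E Bx : ℕ, ∀ (C : ℝ) (T : Polynomial ℤ) (y : Fin N → ℚ⟦X⟧) (i₀ : Fin N)
    (K : IntermediateField ℚ ℂ) (x : K) (X₀ : ℝ), FiniteDimensional ℚ K → Module.finrank ℚ K ≤ m → x ≠ 0 →
    Pt K x X₀ → GSys q C T y → y i₀ = 1 → LinearIndependent (Polynomial ℚ) y → ‖(x : ℂ)‖ * (2 * C) ^ E ≤ 1 →
    X₀ * ‖(x : ℂ)‖ ^ A ≤ 1 → Polynomial.aeval (x : ℂ) T ≠ 0 → ∃ c : ℝ, 0 < c ∧ ∀ (R : ℕ) (a : Fin R → Fin N → K)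
    (A₁ δ : ℝ), LinearIndependent K a → (∀ r j, IsIntegral ℤ (a r j)) → 1 ≤ A₁ → 0 ≤ δ →
    (∀ r j (σ : K →+* ℂ), ‖σ (a r j)‖ ≤ A₁) → (∀ r, ‖∑ i, (a r i : ℂ) * evc (x : ℂ) (y i)‖ ≤ δ) →
    2 * A * m * (N - R) ≤ N → c ≤ δ * A₁ ^ Bx := by
  set L : ℕ := 2 * q + 8 with hL
  set a1 : ℕ := (L + 2 * (N * L)) * (N * L) with ha1
  set a0 : ℕ := (N + 1) * (N * L) with ha0
  set b1 : ℕ := 2 * (2 * q + 3) + 2 * L + a1 with hb1
  set b0 : ℕ := N + 1 + a0 with hb0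
  set c1 : ℕ := 2 + 2 * (q + 1) + L + a1 + 2 * (N * L) with hc1
  set c0 : ℕ := N + 3 + a0 with hc0
  set e1 : ℕ := b1 * (N * m) + c1 with he1
  set e0 : ℕ := b0 * (N * m) + c0 with he0
  set κ : ℕ := (2 * A * (L + 2 * q) + 1) * (N * m) with hκ
  refine ⟨2 * (e1 + b1) + 3, N * m + N * m * κ, ?_⟩
  intro C T y i₀ K x X₀ hK hm hx0 hPt hG h1 hLI hE hXA hTx
  classical
  have : FiniteDimensional ℚ K := hK
  have : NumberField K := { to_charZero := inferInstance, to_finiteDimensional := hK }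
  have hC := hG.one_le
  have hD2 : 2 ≤ 2 * C := by linarith
  have hD1 : 1 ≤ 2 * C := by linarith
  have hNpos : 0 < N := i₀.pos
  have hε0 : 0 ≤ ‖(x : ℂ)‖ := norm_nonneg _
  have hεpos : 0 < ‖(x : ℂ)‖ := by
    rw [norm_pos_iff]
    exact_mod_cast hx0
  have hEs : ∀ s : ℕ, s ≤ 2 * (e1 + b1) + 3 → (2 * C) ^ s * ‖(x : ℂ)‖ ≤ 1 := by
    intro s hs
    calc (2 * C) ^ s * ‖(x : ℂ)‖ ≤ (2 * C) ^ (2 * (e1 + b1) + 3) * ‖(x : ℂ)‖ :=
          mul_le_mul_of_nonneg_right (pow_le_pow_right₀ hD1 hs) hε0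
      _ = ‖(x : ℂ)‖ * (2 * C) ^ (2 * (e1 + b1) + 3) := mul_comm _ _
      _ ≤ 1 := hE
  have hx8 : 8 * C * ‖(x : ℂ)‖ ≤ 1 := by
    have h3 : 8 * C ≤ (2 * C) ^ 3 := by
      have : 1 ≤ C ^ 2 := one_le_pow₀ hC
      nlinarith
    exact (mul_le_mul_of_nonneg_right h3 hε0).trans (hEs 3 (by omega))
  have hε1 : ‖(x : ℂ)‖ ≤ 1 := by nlinarith
  -- the point
  obtain ⟨u, w, hu, hw, hw0, hxuw, hσ⟩ := hPt
  set X : ℝ := max X₀ 1 with hX
  have hX1 : 1 ≤ X := le_max_right _ _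
  have hXX : ∀ σ : K →+* ℂ, ‖σ u‖ ≤ X ∧ ‖σ w‖ ≤ X := fun σ =>
    ⟨(hσ σ).1.trans (le_max_left _ _), (hσ σ).2.trans (le_max_left _ _)⟩
  have hXA' : X * ‖(x : ℂ)‖ ^ A ≤ 1 := by
    rcases le_total X₀ 1 with h | h
    · rw [hX, max_eq_right h, one_mul]; exact pow_le_one₀ hε0 hε1
    · rw [hX, max_eq_left h]; exact hXA
  -- the differential equation
  obtain ⟨g, hg0, hgC, hgG⟩ := hG.der 1
  obtain ⟨G, hGd, hGc, hGe⟩ := hgG 1 le_rfl
  have hode : ∀ i, ((T.map (Int.castRingHom K) : Polynomial K) : K⟦X⟧) * d⁄dX K (PowerSeries.map (algebraMap ℚ K) (y i)) =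
      ∑ j, ((Polynomial.C ((g : K)⁻¹) * (G i j).map (Int.castRingHom K) : Polynomial K) : K⟦X⟧) *
        PowerSeries.map (algebraMap ℚ K) (y j) := by
    intro i
    have h2 := congrArg (PowerSeries.map (algebraMap ℚ K)) (hGe i)
    have h3 : hd 1 (y i) = d⁄dX ℚ (y i) := by
      have := fac_hd 1 (y i)
      simpa using this
    rw [h3, pow_one, map_mul, map_mul, map_ps, map_sum, map_natCast, ← deriv_mapF] at h2
    have h4 : (g : K⟦X⟧) = PowerSeries.C (g : K) := by simp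
    have hgK : (g : K) ≠ 0 := by exact_mod_cast hg0.ne'
    have h5 : PowerSeries.C ((g : K)⁻¹) * ((g : K⟦X⟧) * (((T.map (Int.castRingHom K) : Polynomial K) : K⟦X⟧) *
        d⁄dX K (PowerSeries.map (algebraMap ℚ K) (y i)))) = ((T.map (Int.castRingHom K) : Polynomial K) : K⟦X⟧) *
        d⁄dX K (PowerSeries.map (algebraMap ℚ K) (y i)) := by
      rw [h4, ← mul_assoc, ← map_mul, inv_mul_cancel₀ hgK, map_one, one_mul]
    rw [← h5, h2, Finset.mul_sum]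
    refine Finset.sum_congr rfl fun j _ => ?_
    rw [map_mul, map_ps, Polynomial.coe_mul, Polynomial.coe_C, mul_assoc]
  have hLIK := Pool.Agent.Y708.AL.t_ext K N y hLI
  have hTxK : (T.map (Int.castRingHom K)).eval x ≠ 0 := by
    intro h
    apply hTx
    have h4 : ((((T.map (Int.castRingHom K)).eval x : K)) : ℂ) = Polynomial.aeval (x : ℂ) T := by
      rw [Polynomial.eval_map, Polynomial.aeval_def, Polynomial.eval₂_eq_sum_range, Polynomial.eval₂_eq_sum_range]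
      push_cast
      rfl
    rw [← h4, h]
    rfl
  obtain ⟨c₁, hc₁⟩ := Pool.Agent.Y261.AL.t_rank K N (T.map (Int.castRingHom K)) _
    (fun i => PowerSeries.map (algebraMap ℚ K) (y i)) hode hLIK i₀ (by simp only [h1, map_one]) x hx0 hTxK
  -- the constants
  set η : ℝ := 1 / ‖(x : ℂ)‖ with hη
  have hηε : η * ‖(x : ℂ)‖ = 1 := by rw [hη]; field_simp
  have hηpos : 0 < η := by positivity
  have hη8 : 8 ≤ η := by
    have h3 := hEs 3 (by omega)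
    have h4 : (8 : ℝ) ≤ (2 * C) ^ 3 := by
      calc (8 : ℝ) = 2 ^ 3 := by norm_num
        _ ≤ (2 * C) ^ 3 := pow_le_pow_left₀ (by norm_num) hD2 3
    rw [hη, le_div_iff₀ hεpos]
    exact (mul_le_mul_of_nonneg_right h4 hε0).trans h3
  have hη1 : 1 ≤ η := by linarith
  have hηs : ∀ s : ℕ, s ≤ 2 * (e1 + b1) + 3 → (2 * C) ^ s ≤ η := by
    intro s hs
    rw [hη, le_div_iff₀ hεpos]
    exact hEs s hs
  have hXη : X ≤ η ^ A := by
    have h2 : X * ‖(x : ℂ)‖ ^ A * η ^ A ≤ 1 * η ^ A := mul_le_mul_of_nonneg_right hXA' (by positivity)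
    rw [mul_assoc, ← mul_pow, mul_comm ‖(x : ℂ)‖ η, hηε, one_pow, mul_one, one_mul] at h2
    exact h2
  set B₀ : ℝ := N * (N.factorial : ℝ) ^ m with hB₀
  have hB₀1 : 1 ≤ B₀ := by
    have h2 : (1 : ℝ) ≤ N := by exact_mod_cast hNpos
    have h3 : (1 : ℝ) ≤ (N.factorial : ℝ) ^ m := one_le_pow₀ (by exact_mod_cast Nat.succ_le_of_lt (Nat.factorial_pos N))
    rw [hB₀]; exact one_le_mul_of_one_le_of_one_le h2 h3
  set D : ℝ := 2 * B₀ * (2 * C) ^ e0 with hD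
  have hD1' : 1 ≤ D := by
    have h2 : (1 : ℝ) ≤ (2 * C) ^ e0 := one_le_pow₀ hD1
    have h3 : (1 : ℝ) ≤ 2 * B₀ := by linarith
    rw [hD]; exact one_le_mul_of_one_le_of_one_le h3 h2
  set K₂ : ℝ := 2 * B₀ * (2 * C) ^ (b0 * (N * m)) * (η ^ (κ * (c₁ + 1)) * (η * D) ^ κ) with hK₂
  have hK₂pos : 0 < K₂ := by
    have : 0 < C := by linarith
    positivity
  refine ⟨1 / K₂, by positivity, ?_⟩
  intro R a A₁ δ haLI haI hA₁1 hδ0 hA₁b ha hcount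
  have hA₁0 : 0 ≤ A₁ := by linarith
  have hcore := fun ν hν => coreN hG i₀ h1 K hm x u w hu hw hw0 hxuw X hX1 hXX hx8 c₁ hc₁ a haLI haI δ hδ0 ha A₁ hA₁1 hA₁b
    L ν (by omega) hν
  set r : ℕ := N - R with hr
  have hrN : r ≤ N := Nat.sub_le _ _
  -- the choice of `μ`
  have hDA : 1 ≤ D * A₁ ^ (N * m) := one_le_mul_of_one_le_of_one_le hD1' (one_le_pow₀ hA₁1)
  obtain ⟨n₀, hn₀, hn₀'⟩ := exists_nat_pow_near hDA (show 1 < η by linarith)
  set μ : ℕ := n₀ + 1 + (c₁ + 1) with hμ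
  set ν : ℕ := 2 * μ with hν
  have h := hcore ν (by omega)
  have hNL : 4 ≤ N * L := le_trans (by omega) (Nat.le_mul_of_pos_left L hNpos)
  have hm₀ : (N * L - 1) * ν ≤ N * L * ν := Nat.mul_le_mul_right _ (Nat.sub_le _ _)
  have hA₀ := A0_bound hC N L ν ((N * L - 1) * ν) hm₀
  rw [← ha1, ← ha0] at hA₀
  set A₀ : ℝ := ((N * (L * ν + 1) : ℕ) * C ^ (2 * ((N * L - 1) * ν) + 1)) ^ (N * L) with hA₀d
  have hA₀0 : 0 ≤ A₀ := by positivity
  have hA₀1 : 1 ≤ A₀ := by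
    rw [hA₀d]
    apply one_le_pow₀
    have h2 : (1 : ℝ) ≤ C ^ (2 * ((N * L - 1) * ν) + 1) := one_le_pow₀ hC
    have h3 : (1 : ℝ) ≤ ((N * (L * ν + 1) : ℕ) : ℝ) := by
      exact_mod_cast (Nat.mul_pos hNpos (Nat.succ_pos (L * ν)))
    nlinarith
  set p : ℕ := L * ν + q * (2 * ν) with hp
  have hXp : 1 ≤ X ^ p := one_le_pow₀ hX1
  set Q : ℝ := (2 * C) ^ ((2 * q + 3) * (2 * ν) + 2 * (L * ν) + N + 1) * A₀ with hQ
  have hQ1 : 1 ≤ Q := by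
    have h3 : (1 : ℝ) ≤ (2 * C) ^ ((2 * q + 3) * (2 * ν) + 2 * (L * ν) + N + 1) := one_le_pow₀ hD1
    rw [hQ]
    nlinarith
  have hQb : Q ≤ (2 * C) ^ (b1 * ν + b0) := by
    calc Q ≤ (2 * C) ^ ((2 * q + 3) * (2 * ν) + 2 * (L * ν) + N + 1) * (2 * C) ^ (a1 * ν + a0) :=
          mul_le_mul_of_nonneg_left hA₀ (by positivity)
      _ = (2 * C) ^ (b1 * ν + b0) := by
          rw [← pow_add]; congr 1; rw [hb1, hb0]; ring
  set W : ℝ := (2 * C) ^ (2 * ν + 1) * ((2 * C) ^ ((q + 1) * (2 * ν)) *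
      (2 * ((N * ((L * ν : ℕ) + 1) * A₀ * C) * (4 * C) ^ ((N * L - 1) * ν) * ‖(x : ℂ)‖ ^ ((N * L - 1) * ν - 2 * ν)))) with hW
  have hW0 : 0 ≤ W := by positivity
  have hWb : W ≤ (2 * C) ^ (c1 * ν + c0) * ‖(x : ℂ)‖ ^ ((N * L - 1) * ν - 2 * ν) := by
    have h2 := nat_le_pow hD2 N
    have h3 := nat_le_pow hD2 (L * ν)
    have h4 : (4 * C) ^ ((N * L - 1) * ν) ≤ (2 * C) ^ (2 * (N * L) * ν) := by
      calc (4 * C) ^ ((N * L - 1) * ν) ≤ ((2 * C) ^ 2) ^ ((N * L - 1) * ν) :=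
            pow_le_pow_left₀ (by positivity) (by nlinarith) _
        _ = (2 * C) ^ (2 * ((N * L - 1) * ν)) := by rw [← pow_mul]
        _ ≤ (2 * C) ^ (2 * (N * L) * ν) := pow_le_pow_right₀ hD1 (by rw [mul_assoc]; exact Nat.mul_le_mul_left _ hm₀)
    have h5 : (N : ℝ) * ((L * ν : ℕ) + 1) * A₀ * C ≤ (2 * C) ^ N * (2 * C) ^ (L * ν) * (2 * C) ^ (a1 * ν + a0) * (2 * C) := by
      refine mul_le_mul (mul_le_mul (mul_le_mul (by linarith) h3 (by positivity) (by positivity)) hA₀ hA₀0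
        (by positivity)) (by linarith) (by linarith) (by positivity)
    calc W ≤ (2 * C) ^ (2 * ν + 1) * ((2 * C) ^ ((q + 1) * (2 * ν)) * ((2 * C) *
          (((2 * C) ^ N * (2 * C) ^ (L * ν) * (2 * C) ^ (a1 * ν + a0) * (2 * C)) * (2 * C) ^ (2 * (N * L) * ν) *
          ‖(x : ℂ)‖ ^ ((N * L - 1) * ν - 2 * ν)))) := by
            rw [hW]
            refine mul_le_mul_of_nonneg_left (mul_le_mul_of_nonneg_left ?_ (by positivity)) (by positivity)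
            refine mul_le_mul hD2 ?_ (by positivity) (by linarith)
            exact mul_le_mul_of_nonneg_right (mul_le_mul h5 h4 (by positivity) (by positivity)) (by positivity)
      _ = (2 * C) ^ (c1 * ν + c0) * ‖(x : ℂ)‖ ^ ((N * L - 1) * ν - 2 * ν) := by
          have h6 : c1 * ν + c0 = (2 * ν + 1) + ((q + 1) * (2 * ν) + (1 + (N + L * ν + (a1 * ν + a0) + 1 + 2 * (N * L) * ν))) := by
            rw [hc1, hc0]; ring
          rw [h6]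
          simp only [pow_add, pow_one]
          ring
  -- exponents
  have hexp : A * (p * (r * m)) + ν ≤ (N * L - 1) * ν - 2 * ν := by
    have h2 : 2 * (A * ((4 * q + 8) * (r * m))) ≤ N * (4 * q + 8) := by
      calc 2 * (A * ((4 * q + 8) * (r * m))) = (2 * A * m * r) * (4 * q + 8) := by ring
        _ ≤ N * (4 * q + 8) := Nat.mul_le_mul_right _ hcount
    have h3 : A * ((4 * q + 8) * (r * m)) + 4 ≤ N * L := by
      have h4 : N * L = N * (2 * q) + 8 * N := by rw [hL]; ring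
      have h5 : N * (4 * q + 8) = 2 * (N * (2 * q)) + 8 * N := by ring
      omega
    have h6 : (A * ((4 * q + 8) * (r * m)) + 4) * ν ≤ N * L * ν := Nat.mul_le_mul_right _ h3
    have h7 : A * (p * (r * m)) = A * ((4 * q + 8) * (r * m)) * ν := by rw [hp, hL]; ring
    have h8 : (N * L - 1) * ν = N * L * ν - ν := by rw [Nat.sub_mul, one_mul]
    rw [h7, h8]
    have h9 : (A * ((4 * q + 8) * (r * m)) + 4) * ν = A * ((4 * q + 8) * (r * m)) * ν + 4 * ν := by ring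
    omega
  have hXε : X ^ (p * (r * m)) * ‖(x : ℂ)‖ ^ ((N * L - 1) * ν - 2 * ν) ≤ ‖(x : ℂ)‖ ^ ν := by
    obtain ⟨s, hs⟩ := Nat.exists_eq_add_of_le hexp
    rw [hs, pow_add, pow_add, pow_mul ‖(x : ℂ)‖]
    have h2 : X ^ (p * (r * m)) * (‖(x : ℂ)‖ ^ A) ^ (p * (r * m)) ≤ 1 := by
      rw [← mul_pow]
      exact pow_le_one₀ (by positivity) hXA'
    calc X ^ (p * (r * m)) * ((‖(x : ℂ)‖ ^ A) ^ (p * (r * m)) * ‖(x : ℂ)‖ ^ ν * ‖(x : ℂ)‖ ^ s)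
        = (X ^ (p * (r * m)) * (‖(x : ℂ)‖ ^ A) ^ (p * (r * m))) * ‖(x : ℂ)‖ ^ ν * ‖(x : ℂ)‖ ^ s := by ring
      _ ≤ 1 * ‖(x : ℂ)‖ ^ ν * 1 := by
          refine mul_le_mul (mul_le_mul_of_nonneg_right h2 (by positivity)) (pow_le_one₀ hε0 hε1) (by positivity)
            (by positivity)
      _ = ‖(x : ℂ)‖ ^ ν := by ring
  have hQr : Q ^ (r * m) ≤ (2 * C) ^ ((b1 * ν + b0) * (N * m)) := by
    calc Q ^ (r * m) ≤ ((2 * C) ^ (b1 * ν + b0)) ^ (r * m) := pow_le_pow_left₀ (by linarith) hQb _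
      _ = (2 * C) ^ ((b1 * ν + b0) * (r * m)) := by rw [← pow_mul]
      _ ≤ _ := pow_le_pow_right₀ hD1 (Nat.mul_le_mul_left _ (Nat.mul_le_mul_right _ hrN))
  set Gm : ℝ := (N.factorial * A₁ ^ N * (X ^ p * Q) ^ r) ^ m with hGm
  have hGm0 : 0 ≤ Gm := by positivity
  have hGme : Gm = (N.factorial : ℝ) ^ m * A₁ ^ (N * m) * (X ^ (p * (r * m)) * Q ^ (r * m)) := by
    rw [hGm, mul_pow, mul_pow, ← pow_mul A₁, ← pow_mul, mul_pow, ← pow_mul X p]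
  -- the first term
  have hF1 : N * W * Gm ≤ B₀ * A₁ ^ (N * m) * (2 * C) ^ (e1 * ν + e0) * ‖(x : ℂ)‖ ^ ν := by
    calc N * W * Gm = B₀ * A₁ ^ (N * m) * W * (X ^ (p * (r * m)) * Q ^ (r * m)) := by rw [hGme, hB₀]; ring
      _ ≤ B₀ * A₁ ^ (N * m) * ((2 * C) ^ (c1 * ν + c0) * ‖(x : ℂ)‖ ^ ((N * L - 1) * ν - 2 * ν)) *
          (X ^ (p * (r * m)) * (2 * C) ^ ((b1 * ν + b0) * (N * m))) :=
          mul_le_mul (mul_le_mul_of_nonneg_left hWb (by positivity)) (mul_le_mul_of_nonneg_left hQr (by positivity))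
            (by positivity) (by positivity)
      _ = B₀ * A₁ ^ (N * m) * ((2 * C) ^ (c1 * ν + c0) * (2 * C) ^ ((b1 * ν + b0) * (N * m))) *
          (X ^ (p * (r * m)) * ‖(x : ℂ)‖ ^ ((N * L - 1) * ν - 2 * ν)) := by ring
      _ ≤ B₀ * A₁ ^ (N * m) * ((2 * C) ^ (c1 * ν + c0) * (2 * C) ^ ((b1 * ν + b0) * (N * m))) * ‖(x : ℂ)‖ ^ ν :=
          mul_le_mul_of_nonneg_left hXε (by positivity)
      _ = B₀ * A₁ ^ (N * m) * (2 * C) ^ (e1 * ν + e0) * ‖(x : ℂ)‖ ^ ν := by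
          rw [← pow_add]
          congr 3
          rw [he1, he0]; ring
  have hF2 : B₀ * A₁ ^ (N * m) * (2 * C) ^ (e1 * ν + e0) * ‖(x : ℂ)‖ ^ ν ≤ 1 / 2 := by
    have h2 : (2 * C) ^ (e1 * ν) * ‖(x : ℂ)‖ ^ ν ≤ ‖(x : ℂ)‖ ^ μ := by
      have h3 : (2 * C) ^ (e1 * ν) * ‖(x : ℂ)‖ ^ ν = ((2 * C) ^ (2 * e1) * ‖(x : ℂ)‖) ^ μ * ‖(x : ℂ)‖ ^ μ := by
        have h5 : e1 * ν = 2 * e1 * μ := by rw [hν]; ring
        have h6 : ν = μ + μ := by rw [hν]; ring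
        rw [h5, mul_pow ((2 * C) ^ (2 * e1)) ‖(x : ℂ)‖ μ, ← pow_mul (2 * C) (2 * e1) μ]
        rw [h6, pow_add ‖(x : ℂ)‖ μ μ]
        ring
      rw [h3]
      have h4 := hEs (2 * e1) (by omega)
      calc ((2 * C) ^ (2 * e1) * ‖(x : ℂ)‖) ^ μ * ‖(x : ℂ)‖ ^ μ ≤ 1 * ‖(x : ℂ)‖ ^ μ :=
            mul_le_mul_of_nonneg_right (pow_le_one₀ (by positivity) h4) (by positivity)
        _ = _ := one_mul _
    have h3 : ‖(x : ℂ)‖ ^ μ ≤ ‖(x : ℂ)‖ ^ (n₀ + 1) := pow_le_pow_of_le_one hε0 hε1 (by omega)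
    have h4 : D * A₁ ^ (N * m) * ‖(x : ℂ)‖ ^ (n₀ + 1) ≤ 1 := by
      calc D * A₁ ^ (N * m) * ‖(x : ℂ)‖ ^ (n₀ + 1) ≤ η ^ (n₀ + 1) * ‖(x : ℂ)‖ ^ (n₀ + 1) :=
            mul_le_mul_of_nonneg_right hn₀'.le (by positivity)
        _ = 1 := by rw [← mul_pow, hηε, one_pow]
    calc B₀ * A₁ ^ (N * m) * (2 * C) ^ (e1 * ν + e0) * ‖(x : ℂ)‖ ^ ν
        = B₀ * A₁ ^ (N * m) * (2 * C) ^ e0 * ((2 * C) ^ (e1 * ν) * ‖(x : ℂ)‖ ^ ν) := by rw [pow_add]; ring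
      _ ≤ B₀ * A₁ ^ (N * m) * (2 * C) ^ e0 * ‖(x : ℂ)‖ ^ (n₀ + 1) :=
          mul_le_mul_of_nonneg_left (h2.trans h3) (by positivity)
      _ = (D * A₁ ^ (N * m) * ‖(x : ℂ)‖ ^ (n₀ + 1)) / 2 := by rw [hD]; ring
      _ ≤ 1 / 2 := by linarith
  -- the second term
  have hmain : 1 ≤ 2 * N * δ * Gm := by
    have hpos : 0 < X ^ p := by linarith
    have h2 : Q ≤ N * (W + δ * Q) * Gm := by
      have h3 : X ^ p * Q ≤ X ^ p * (N * (W + δ * Q) * Gm) := by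
        calc X ^ p * Q ≤ N * (X ^ p * W + δ * (X ^ p * Q)) * Gm := h
          _ = _ := by ring
      exact le_of_mul_le_mul_left h3 hpos
    have h3 : N * W * Gm ≤ Q / 2 := (hF1.trans hF2).trans (by linarith)
    have h4 : Q / 2 ≤ N * δ * Q * Gm := by
      have h5 : N * (W + δ * Q) * Gm = N * W * Gm + N * δ * Q * Gm := by ring
      linarith
    have hQpos : 0 < Q := by linarith
    have h5 : Q * 1 ≤ Q * (2 * N * δ * Gm) := by
      have : Q * (2 * N * δ * Gm) = 2 * (N * δ * Q * Gm) := by ring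
      linarith
    exact le_of_mul_le_mul_left h5 hQpos
  have hGb : N * Gm ≤ B₀ * (2 * C) ^ (b0 * (N * m)) * A₁ ^ (N * m) * η ^ (κ * μ) := by
    have h2 : X ^ (p * (r * m)) ≤ η ^ (2 * A * (L + 2 * q) * (N * m) * μ) := by
      calc X ^ (p * (r * m)) ≤ X ^ (p * (N * m)) :=
            pow_le_pow_right₀ hX1 (Nat.mul_le_mul_left _ (Nat.mul_le_mul_right _ hrN))
        _ ≤ (η ^ A) ^ (p * (N * m)) := pow_le_pow_left₀ (by linarith) hXη _
        _ = η ^ (2 * A * (L + 2 * q) * (N * m) * μ) := by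
            rw [← pow_mul]
            congr 1
            rw [hp, hν]; ring
    have h3 : (2 * C) ^ ((b1 * ν + b0) * (N * m)) ≤ (2 * C) ^ (b0 * (N * m)) * η ^ (N * m * μ) := by
      have h4 : (b1 * ν + b0) * (N * m) = b0 * (N * m) + 2 * b1 * (N * m * μ) := by rw [hν]; ring
      rw [h4, pow_add, pow_mul (2 * C) (2 * b1)]
      exact mul_le_mul_of_nonneg_left (pow_le_pow_left₀ (by positivity) (hηs _ (by omega)) _) (by positivity)
    calc N * Gm = B₀ * A₁ ^ (N * m) * (X ^ (p * (r * m)) * Q ^ (r * m)) := by rw [hGme, hB₀]; ring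
      _ ≤ B₀ * A₁ ^ (N * m) * (η ^ (2 * A * (L + 2 * q) * (N * m) * μ) * ((2 * C) ^ (b0 * (N * m)) * η ^ (N * m * μ))) :=
          mul_le_mul_of_nonneg_left (mul_le_mul h2 (hQr.trans h3) (by positivity) (by positivity)) (by positivity)
      _ = B₀ * (2 * C) ^ (b0 * (N * m)) * A₁ ^ (N * m) * (η ^ (2 * A * (L + 2 * q) * (N * m) * μ) * η ^ (N * m * μ)) := by
          ring
      _ = B₀ * (2 * C) ^ (b0 * (N * m)) * A₁ ^ (N * m) * η ^ (κ * μ) := by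
          rw [← pow_add]
          congr 2
          rw [hκ]; ring
  have hηκ : η ^ (κ * μ) ≤ η ^ (κ * (c₁ + 1)) * ((η * D) ^ κ * A₁ ^ (N * m * κ)) := by
    have h2 : η ^ (n₀ + 1) ≤ η * D * A₁ ^ (N * m) := by
      rw [pow_succ', mul_assoc]
      exact mul_le_mul_of_nonneg_left hn₀ hηpos.le
    calc η ^ (κ * μ) = η ^ (κ * (c₁ + 1)) * (η ^ (n₀ + 1)) ^ κ := by
          rw [← pow_mul, ← pow_add]
          congr 1
          rw [hμ]; ring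
      _ ≤ η ^ (κ * (c₁ + 1)) * (η * D * A₁ ^ (N * m)) ^ κ :=
          mul_le_mul_of_nonneg_left (pow_le_pow_left₀ (by positivity) h2 _) (by positivity)
      _ = _ := by rw [mul_pow, ← pow_mul]
  rw [div_le_iff₀ hK₂pos]
  calc (1 : ℝ) ≤ 2 * N * δ * Gm := hmain
    _ = 2 * δ * (N * Gm) := by ring
    _ ≤ 2 * δ * (B₀ * (2 * C) ^ (b0 * (N * m)) * A₁ ^ (N * m) *
        (η ^ (κ * (c₁ + 1)) * ((η * D) ^ κ * A₁ ^ (N * m * κ)))) := by
        refine mul_le_mul_of_nonneg_left (hGb.trans ?_) (by positivity)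
        exact mul_le_mul_of_nonneg_left hηκ (by positivity)
    _ = δ * A₁ ^ (N * m + N * m * κ) * K₂ := by
        rw [hK₂, pow_add]; ring

end Pool.Agent.Q246.NR
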