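import Mathlib

/-!
# The length of a polynomial
-/

set_option autoImplicit false

namespace Pool.Agent.Q246.NR

open MvPolynomial

/-- the length: the sum of the absolute values of the coefficients -/
noncomputable def len {σ R : Type} [NormedCommRing R] (P : MvPolynomial σ R) : ℝ := ∑ d ∈ P.support, ‖P.coeff d‖

section

variable {σ R : Type} [NormedCommRing R]

lemma len_nonneg (P : MvPolynomial σ R) : 0 ≤ len P := Finset.sum_nonneg fun _ _ => norm_nonneg _

lemma len_eq (P : MvPolynomial σ R) {S : Finset (σ →₀ ℕ)} (h : P.support ⊆ S) :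
    len P = ∑ d ∈ S, ‖P.coeff d‖ := by
  rw [len]
  refine Finset.sum_subset h fun d _ hd => ?_
  rw [MvPolynomial.notMem_support_iff.1 hd]
  simp

lemma norm_coeff_le_len (P : MvPolynomial σ R) (d : σ →₀ ℕ) : ‖P.coeff d‖ ≤ len P := by
  by_cases hd : d ∈ P.support
  · exact Finset.single_le_sum (f := fun d => ‖P.coeff d‖) (fun _ _ => norm_nonneg _) hd
  · rw [MvPolynomial.notMem_support_iff.1 hd]
    simpa using len_nonneg P

lemma len_zero : len (0 : MvPolynomial σ R) = 0 := by simp [len]

lemma len_add (P Q : MvPolynomial σ R) : len (P + Q) ≤ len P + len Q := by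
  classical
  have h1 : (P + Q).support ⊆ P.support ∪ Q.support := MvPolynomial.support_add
  rw [len_eq _ h1, len_eq P (Finset.subset_union_left (s₂ := Q.support)),
    len_eq Q (Finset.subset_union_right (s₁ := P.support)), ← Finset.sum_add_distrib]
  refine Finset.sum_le_sum fun d _ => ?_
  rw [MvPolynomial.coeff_add]
  exact norm_add_le _ _

lemma len_neg (P : MvPolynomial σ R) : len (-P) = len P := by
  rw [len, len, MvPolynomial.support_neg]
  refine Finset.sum_congr rfl fun d _ => ?_
  rw [MvPolynomial.coeff_neg]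
  exact norm_neg _

lemma len_sub (P Q : MvPolynomial σ R) : len (P - Q) ≤ len P + len Q := by
  rw [sub_eq_add_neg]
  refine (len_add _ _).trans ?_
  rw [len_neg]

lemma len_sum {ι : Type} (s : Finset ι) (f : ι → MvPolynomial σ R) : len (∑ i ∈ s, f i) ≤ ∑ i ∈ s, len (f i) := by
  classical
  induction s using Finset.induction_on with
  | empty => simp [len_zero]
  | insert a s ha ih =>
    rw [Finset.sum_insert ha, Finset.sum_insert ha]
    exact (len_add _ _).trans (add_le_add le_rfl ih)

lemma len_monomial (d : σ →₀ ℕ) (a : R) : len (monomial d a) = ‖a‖ := by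
  classical
  have h1 : (monomial d a).support ⊆ {d} := by
    rw [MvPolynomial.support_monomial]
    split_ifs
    · exact Finset.empty_subset _
    · exact subset_rfl
  rw [len_eq _ h1, Finset.sum_singleton, MvPolynomial.coeff_monomial, if_pos rfl]

lemma len_mul (P Q : MvPolynomial σ R) : len (P * Q) ≤ len P * len Q := by
  classical
  have h1 : P * Q = ∑ d ∈ P.support, ∑ e ∈ Q.support, monomial (d + e) (P.coeff d * Q.coeff e) := by
    conv_lhs => rw [MvPolynomial.as_sum P, MvPolynomial.as_sum Q]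
    rw [Finset.sum_mul_sum]
    refine Finset.sum_congr rfl fun d _ => Finset.sum_congr rfl fun e _ => ?_
    rw [MvPolynomial.monomial_mul]
  rw [h1]
  refine (len_sum _ _).trans ?_
  rw [len, Finset.sum_mul]
  refine Finset.sum_le_sum fun d _ => ?_
  refine (len_sum _ _).trans ?_
  rw [len, Finset.mul_sum]
  refine Finset.sum_le_sum fun e _ => ?_
  rw [len_monomial]
  exact norm_mul_le _ _

lemma len_C (a : R) : len (C a : MvPolynomial σ R) = ‖a‖ := by
  rw [← MvPolynomial.monomial_zero']
  exact len_monomial _ _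

variable [NormOneClass R]

lemma len_one : len (1 : MvPolynomial σ R) = 1 := by
  rw [← C_1, len_C]
  simp

lemma len_X (s : σ) : len (X s : MvPolynomial σ R) = 1 := by
  rw [MvPolynomial.X, len_monomial]
  simp

lemma len_pow (P : MvPolynomial σ R) (n : ℕ) : len (P ^ n) ≤ len P ^ n := by
  induction n with
  | zero => rw [pow_zero, pow_zero, len_one]
  | succ n ih =>
    rw [pow_succ, pow_succ]
    exact (len_mul _ _).trans (mul_le_mul_of_nonneg_right ih (len_nonneg _))

lemma len_prod {ι : Type} (s : Finset ι) (f : ι → MvPolynomial σ R) : len (∏ i ∈ s, f i) ≤ ∏ i ∈ s, len (f i) := by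
  classical
  induction s using Finset.induction_on with
  | empty => simp [len_one]
  | insert a s ha ih =>
    rw [Finset.prod_insert ha, Finset.prod_insert ha]
    exact (len_mul _ _).trans (mul_le_mul_of_nonneg_left ih (len_nonneg _))

end

section

variable {σ : Type}

lemma len_eq_int (P : MvPolynomial σ ℤ) : len P = ∑ d ∈ P.support, |((P.coeff d : ℤ) : ℝ)| := rfl

lemma abs_coeff_le_len (P : MvPolynomial σ ℤ) (d : σ →₀ ℕ) : |((P.coeff d : ℤ) : ℝ)| ≤ len P :=
  norm_coeff_le_len P d

/-- the value of a polynomial -/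
lemma norm_aeval_le (v : σ → ℂ) {V : ℝ} (hV : 1 ≤ V) (hv : ∀ i, ‖v i‖ ≤ V) (P : MvPolynomial σ ℤ) {D : ℕ}
    (hD : P.totalDegree ≤ D) : ‖aeval v P‖ ≤ len P * V ^ D := by
  classical
  conv_lhs => rw [MvPolynomial.as_sum P, map_sum]
  refine (norm_sum_le _ _).trans ?_
  rw [len_eq_int, Finset.sum_mul]
  refine Finset.sum_le_sum fun d hd => ?_
  rw [MvPolynomial.aeval_monomial, norm_mul]
  have h1 : ‖(algebraMap ℤ ℂ) (P.coeff d)‖ = |((P.coeff d : ℤ) : ℝ)| := by
    rw [eq_intCast, Complex.norm_intCast]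
  rw [h1]
  refine mul_le_mul_of_nonneg_left ?_ (abs_nonneg _)
  rw [Finsupp.prod, norm_prod]
  calc ∏ i ∈ d.support, ‖v i ^ d i‖ ≤ ∏ i ∈ d.support, V ^ d i := by
        refine Finset.prod_le_prod (fun _ _ => norm_nonneg _) fun i _ => ?_
        rw [norm_pow]
        exact pow_le_pow_left₀ (norm_nonneg _) (hv i) _
    _ = V ^ (∑ i ∈ d.support, d i) := by rw [Finset.prod_pow_eq_pow_sum]
    _ ≤ V ^ D := by
        refine pow_le_pow_right₀ hV ?_
        exact (MvPolynomial.le_totalDegree hd).trans hD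

/-- substitution -/
lemma len_aeval {τ R : Type} [NormedCommRing R] [NormOneClass R] [Algebra ℤ (MvPolynomial τ R)] (hR : ∀ a : ℤ, ‖(a : R)‖ ≤ |(a : ℝ)|)
    (f : σ → MvPolynomial τ R) {L : ℝ} (hL : 1 ≤ L) (hf : ∀ i, len (f i) ≤ L)
    (P : MvPolynomial σ ℤ) {D : ℕ} (hD : P.totalDegree ≤ D) : len (aeval f P) ≤ len P * L ^ D := by
  classical
  conv_lhs => rw [MvPolynomial.as_sum P, map_sum]
  refine (len_sum _ _).trans ?_
  rw [len_eq_int, Finset.sum_mul]
  refine Finset.sum_le_sum fun d hd => ?_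
  rw [MvPolynomial.aeval_monomial]
  refine (len_mul _ _).trans ?_
  have h1 : len ((algebraMap ℤ (MvPolynomial τ R)) (P.coeff d)) ≤ |((P.coeff d : ℤ) : ℝ)| := by
    have h2 : (algebraMap ℤ (MvPolynomial τ R)) (P.coeff d) = C ((P.coeff d : ℤ) : R) := by
      rw [eq_intCast, map_intCast]
    rw [h2, len_C]
    exact hR _
  refine mul_le_mul h1 ?_ (len_nonneg _) (abs_nonneg _)
  rw [Finsupp.prod]
  refine (len_prod _ _).trans ?_
  calc ∏ i ∈ d.support, len (f i ^ d i) ≤ ∏ i ∈ d.support, L ^ d i := by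
        refine Finset.prod_le_prod (fun _ _ => len_nonneg _) fun i _ => ?_
        exact (len_pow _ _).trans (pow_le_pow_left₀ (len_nonneg _) (hf i) _)
    _ = L ^ (∑ i ∈ d.support, d i) := by rw [Finset.prod_pow_eq_pow_sum]
    _ ≤ L ^ D := by
        refine pow_le_pow_right₀ hL ?_
        exact (MvPolynomial.le_totalDegree hd).trans hD

end

end Pool.Agent.Q246.NR
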