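import Pool.Agent.Q246.NR.Len

/-!
# Elimination of the constants
-/

set_option autoImplicit false

namespace Pool.Agent.Q246.NR

open MvPolynomial

/-- lower bounds for the values of nonzero polynomials of degree at most `D` and of large height -/
def Low {σ : Type} (v : σ → ℂ) (D B : ℕ) : Prop :=
  ∃ H₀ : ℝ, ∀ H : ℝ, H₀ ≤ H → ∀ Q : MvPolynomial σ ℤ, Q ≠ 0 → Q.totalDegree ≤ D → len Q ≤ H →
    1 ≤ H ^ B * ‖aeval v Q‖

/-- the monomials in the variables of one point -/
noncomputable def mX {ι κ : Type} [Fintype κ] {d : ℕ} (i : ι) (l : κ → Fin (d + 1)) : MvPolynomial (ι × κ) ℤ :=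
  ∏ k, X (i, k) ^ (l k : ℕ)

section

variable {ι κ : Type} [Fintype κ] [DecidableEq κ] {d : ℕ}

lemma deg_mX (i : ι) (l : κ → Fin (d + 1)) : (mX i l).totalDegree ≤ Fintype.card κ * d := by
  rw [mX]
  refine (MvPolynomial.totalDegree_finset_prod _ _).trans ?_
  calc ∑ k : κ, (X (i, k) ^ (l k : ℕ) : MvPolynomial (ι × κ) ℤ).totalDegree ≤ ∑ _k : κ, d := by
        refine Finset.sum_le_sum fun k _ => ?_
        rw [MvPolynomial.totalDegree_X_pow]
        have := (l k).2
        omega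
    _ = Fintype.card κ * d := by rw [Finset.sum_const, Finset.card_univ, smul_eq_mul]

lemma len_mX (i : ι) (l : κ → Fin (d + 1)) : len (mX i l) ≤ 1 := by
  rw [mX]
  refine (len_prod _ _).trans ?_
  refine Finset.prod_le_one (fun _ _ => len_nonneg _) fun k _ => ?_
  refine (len_pow _ _).trans ?_
  rw [len_X, one_pow]

lemma aeval_mX (v : ι × κ → ℂ) (i : ι) (l : κ → Fin (d + 1)) :
    aeval v (mX i l) = ∏ k, v (i, k) ^ (l k : ℕ) := by
  rw [mX, map_prod]
  refine Finset.prod_congr rfl fun k _ => ?_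
  rw [map_pow, aeval_X]

lemma mX_mem (i : ι) (l : κ → Fin (d + 1)) {R : Set (ι × κ)} (h : ∀ k, (i, k) ∈ R) : mX i l ∈ supported ℤ R := by
  rw [mX]
  refine Subalgebra.prod_mem _ fun k _ => ?_
  exact Subalgebra.pow_mem _ (X_mem_supported.2 (h k)) _

/-- the monomials of one point are independent over the polynomials in the variables of the other points -/
lemma free_indep (i₀ : ι) (c : (κ → Fin (d + 1)) → MvPolynomial (ι × κ) ℤ)
    (hc : ∀ l, c l ∈ supported ℤ {p : ι × κ | p.1 ≠ i₀}) (h : ∑ l, c l * mX i₀ l = 0) (l : κ → Fin (d + 1)) :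
    c l = 0 := by
  classical
  let φ : MvPolynomial (ι × κ) ℤ →ₐ[ℤ] MvPolynomial κ (MvPolynomial (ι × κ) ℤ) :=
    aeval (fun p => if p.1 = i₀ then X p.2 else C (X p))
  have hφ : ∀ l, φ (c l) = C (c l) := by
    intro l
    have h1 := mem_supported.1 (hc l)
    refine hom_congr_vars (f₁ := φ.toRingHom) (f₂ := C) (RingHom.ext_int _ _) ?_ rfl
    intro p hp _
    have h2 : p.1 ≠ i₀ := h1 hp
    change φ (X p) = C (X p)
    rw [aeval_X, if_neg h2]
  have hm : ∀ l : κ → Fin (d + 1), φ (mX i₀ l) = ∏ k, X k ^ (l k : ℕ) := by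
    intro l
    rw [mX, map_prod]
    refine Finset.prod_congr rfl fun k _ => ?_
    rw [map_pow, aeval_X, if_pos rfl]
  let e : (κ → Fin (d + 1)) → (κ →₀ ℕ) := fun l => Finsupp.equivFunOnFinite.symm fun k => (l k : ℕ)
  have he : ∀ l l', e l = e l' → l = l' := by
    intro l l' hll
    funext k
    have h2 := DFunLike.congr_fun hll k
    simp only [e, Finsupp.equivFunOnFinite_symm_apply_apply] at h2
    exact Fin.ext h2
  have hmon : ∀ l : κ → Fin (d + 1), (∏ k, X k ^ (l k : ℕ) : MvPolynomial κ (MvPolynomial (ι × κ) ℤ)) =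
      monomial (e l) 1 := by
    intro l
    rw [MvPolynomial.monomial_eq, C_1, one_mul, Finsupp.prod_fintype _ _ (fun _ => pow_zero _)]
    rfl
  have h2 := congrArg φ h
  rw [map_zero, map_sum] at h2
  have h3 : ∑ l' : κ → Fin (d + 1), (monomial (e l') (c l') : MvPolynomial κ (MvPolynomial (ι × κ) ℤ)) = 0 := by
    rw [← h2]
    refine Finset.sum_congr rfl fun l' _ => ?_
    rw [map_mul, hφ, hm, hmon, C_mul_monomial, mul_one]
  have h4 := congrArg (MvPolynomial.coeff (e l)) h3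
  rw [MvPolynomial.coeff_sum, Finset.sum_eq_single l] at h4
  · simpa using h4
  · intro l' _ hl'
    rw [MvPolynomial.coeff_monomial, if_neg]
    exact fun hcon => hl' (he _ _ hcon)
  · intro h5
    exact absurd (Finset.mem_univ _) h5

end

/-- elimination -/
theorem elim (B : ℕ → ℕ) (κ : Type) [Fintype κ] [DecidableEq κ] (d : ℕ) (n : ℕ) : ∀ D₀ : ℕ, ∃ Dm B' : ℕ,
    ∀ (ι : Type) [Finite ι] (v : ι × κ → ℂ), (∀ D ≤ Dm, Low v D (B D)) → ∃ H₀ : ℝ, ∀ H : ℝ, H₀ ≤ H →
    ∀ (J : Type) [Fintype J], Fintype.card J = n → ∀ R : Finset ι, n < R.card → ∀ (W : J → ℂ)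
    (c : ι → J → (κ → Fin (d + 1)) → MvPolynomial (ι × κ) ℤ),
    (∀ i ∈ R, ∀ j l, c i j l ∈ supported ℤ {p : ι × κ | p.1 ∉ R}) →
    (∀ i ∈ R, ∀ j l, (c i j l).totalDegree ≤ D₀) → (∀ i ∈ R, ∀ j l, len (c i j l) ≤ H) →
    ∀ K : ι → ℝ, (∀ i ∈ R, 0 < K i) → (∀ i ∈ R, ∃ l, K i ≤ ‖∑ j, W j * aeval v (c i j l)‖) →
    (∀ i ∈ R, H ^ B' * ‖∑ l, (∑ j, W j * aeval v (c i j l)) * ∏ k, v (i, k) ^ (l k : ℕ)‖ ≤ K i) → False := by
  classical
  induction n with
  | zero =>
    intro D₀
    refine ⟨0, 0, fun ι _ v _ => ⟨0, fun H _ J _ hJ R hR W c _ _ _ K hK hex _ => ?_⟩⟩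
    obtain ⟨i, hi⟩ := Finset.card_pos.1 hR
    obtain ⟨l, hl⟩ := hex i hi
    have hJ' : IsEmpty J := Fintype.card_eq_zero_iff.1 hJ
    rw [Finset.univ_eq_empty, Finset.sum_empty, norm_zero] at hl
    linarith [hK i hi]
  | succ n ih =>
    intro D₀
    set D₂ : ℕ := D₀ + Fintype.card κ * d with hD₂
    obtain ⟨Dm₁, B'', hih⟩ := ih (D₂ + D₀)
    set b : ℕ := 2 * B D₂ with hb
    refine ⟨max Dm₁ D₂, 3 * B'' + b + 2, fun ι _ v hlow => ?_⟩
    have := Fintype.ofFinite ι
    obtain ⟨H₁, hH₁⟩ := hih ι v (fun D hD => hlow D (hD.trans (le_max_left _ _)))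
    obtain ⟨H₂, hH₂⟩ := hlow D₂ (le_max_right _ _)
    set V : ℝ := 1 + ∑ p : ι × κ, ‖v p‖ with hV
    have hV1 : 1 ≤ V := by
      have : 0 ≤ ∑ p : ι × κ, ‖v p‖ := Finset.sum_nonneg fun _ _ => norm_nonneg _
      linarith
    have hVv : ∀ p, ‖v p‖ ≤ V := by
      intro p
      have := Finset.single_le_sum (f := fun p : ι × κ => ‖v p‖) (fun _ _ => norm_nonneg _) (Finset.mem_univ p)
      linarith
    set N : ℝ := ((Fintype.card (κ → Fin (d + 1)) : ℕ) : ℝ) with hN
    have hN1 : 1 ≤ N := by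
      rw [hN]
      have : Nonempty (κ → Fin (d + 1)) := ⟨fun _ => 0⟩
      exact_mod_cast Fintype.card_pos
    set Λ : ℝ := N * V ^ D₂ with hΛ
    have hVD : ∀ D, 1 ≤ V ^ D := fun D => one_le_pow₀ hV1
    have hΛ1 : 1 ≤ Λ := one_le_mul_of_one_le_of_one_le hN1 (hVD _)
    refine ⟨max (max H₁ H₂) (max (4 * Λ) (2 * N)), fun H hH J _ hJ R hR W c hcs hcd hcl K hK hex hsm => ?_⟩
    have hHH₁ : H₁ ≤ H := (le_max_left _ _).trans ((le_max_left _ _).trans hH)
    have hHH₂ : H₂ ≤ H := (le_max_right _ _).trans ((le_max_left _ _).trans hH)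
    have hHΛ : 4 * Λ ≤ H := (le_max_left _ _).trans ((le_max_right _ _).trans hH)
    have hHN : 2 * N ≤ H := (le_max_right _ _).trans ((le_max_right _ _).trans hH)
    have hH1 : 1 ≤ H := by linarith
    have hH0 : 0 < H := by linarith
    have hHsq : H ≤ H ^ 2 := by nlinarith
    have hHcu : H ≤ H ^ 3 := le_self_pow₀ hH1 (by norm_num)
    -- the point
    have hRne : R.Nonempty := Finset.card_pos.1 (by omega)
    obtain ⟨i₀, hi₀, hmin⟩ := Finset.exists_min_image R K hRne
    set A : J → MvPolynomial (ι × κ) ℤ := fun j => ∑ l, c i₀ j l * mX i₀ l with hA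
    have hAd : ∀ j, (A j).totalDegree ≤ D₂ := by
      intro j
      refine MvPolynomial.totalDegree_finsetSum_le fun l _ => ?_
      refine (MvPolynomial.totalDegree_mul _ _).trans ?_
      have h1 := hcd i₀ hi₀ j l
      have h2 := deg_mX i₀ l
      omega
    have hAl : ∀ j, len (A j) ≤ N * H := by
      intro j
      refine (len_sum _ _).trans ?_
      calc ∑ l, len (c i₀ j l * mX i₀ l) ≤ ∑ _l : κ → Fin (d + 1), H := by
            refine Finset.sum_le_sum fun l _ => ?_
            refine (len_mul _ _).trans ?_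
            calc len (c i₀ j l) * len (mX i₀ l) ≤ H * 1 :=
                  mul_le_mul (hcl i₀ hi₀ j l) (len_mX _ _) (len_nonneg _) hH0.le
              _ = H := mul_one _
        _ = N * H := by rw [Finset.sum_const, Finset.card_univ, nsmul_eq_mul]
    have hAs : ∀ j, A j ∈ supported ℤ {p : ι × κ | p.1 ∉ R.erase i₀} := by
      intro j
      refine Subalgebra.sum_mem _ fun l _ => ?_
      refine Subalgebra.mul_mem _ ?_ ?_
      · refine supported_mono ?_ (hcs i₀ hi₀ j l)
        intro p hp hp2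
        exact hp (Finset.mem_of_mem_erase hp2)
      · refine mX_mem _ _ fun k hk => ?_
        exact (Finset.mem_erase.1 hk).1 rfl
    -- a nonzero coefficient
    obtain ⟨j₀, hj₀⟩ : ∃ j, A j ≠ 0 := by
      by_contra hcon
      push Not at hcon
      obtain ⟨l, hl⟩ := hex i₀ hi₀
      have h1 : ∀ j, c i₀ j l = 0 := by
        intro j
        refine free_indep i₀ (c i₀ j) (fun l => ?_) (hcon j) l
        refine supported_mono ?_ (hcs i₀ hi₀ j l)
        intro p hp hp2
        have hp3 : p.1 ∉ R := hp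
        rw [hp2] at hp3
        exact hp3 hi₀
      have h2 : ∑ j, W j * aeval v (c i₀ j l) = 0 := by
        refine Finset.sum_eq_zero fun j _ => ?_
        rw [h1, map_zero, mul_zero]
      rw [h2, norm_zero] at hl
      linarith [hK i₀ hi₀]
    have hlowA : 1 ≤ H ^ b * ‖aeval v (A j₀)‖ := by
      have h1 := hH₂ (H ^ 2) (hHH₂.trans hHsq) (A j₀) hj₀ (hAd j₀) ((hAl j₀).trans (by nlinarith))
      rwa [← pow_mul] at h1
    -- bounds for the values
    have hvA : ∀ i ∈ R, ∀ j, ‖∑ l, aeval v (c i j l) * ∏ k, v (i, k) ^ (l k : ℕ)‖ ≤ Λ * H := by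
      intro i hi j
      have h1 : ∑ l, aeval v (c i j l) * ∏ k, v (i, k) ^ (l k : ℕ) = aeval v (∑ l, c i j l * mX i l) := by
        rw [map_sum]
        refine Finset.sum_congr rfl fun l _ => ?_
        rw [map_mul, aeval_mX]
      rw [h1]
      refine (norm_aeval_le v hV1 hVv _ (D := D₂) ?_).trans ?_
      · refine MvPolynomial.totalDegree_finsetSum_le fun l _ => ?_
        refine (MvPolynomial.totalDegree_mul _ _).trans ?_
        have h1 := hcd i hi j l
        have h2 := deg_mX i l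
        omega
      · have h2 : len (∑ l, c i j l * mX i l) ≤ N * H := by
          refine (len_sum _ _).trans ?_
          calc ∑ l, len (c i j l * mX i l) ≤ ∑ _l : κ → Fin (d + 1), H := by
                refine Finset.sum_le_sum fun l _ => ?_
                refine (len_mul _ _).trans ?_
                calc len (c i j l) * len (mX i l) ≤ H * 1 :=
                      mul_le_mul (hcl i hi j l) (len_mX _ _) (len_nonneg _) hH0.le
                  _ = H := mul_one _
            _ = N * H := by rw [Finset.sum_const, Finset.card_univ, nsmul_eq_mul]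
        calc len (∑ l, c i j l * mX i l) * V ^ D₂ ≤ (N * H) * V ^ D₂ :=
              mul_le_mul_of_nonneg_right h2 (by positivity)
          _ = Λ * H := by rw [hΛ]; ring
    have hvc : ∀ i ∈ R, ∀ j l, ‖aeval v (c i j l)‖ ≤ Λ * H := by
      intro i hi j l
      refine (norm_aeval_le v hV1 hVv _ (hcd i hi j l)).trans ?_
      have h1 : V ^ D₀ ≤ Λ := by
        calc V ^ D₀ ≤ V ^ D₂ := pow_le_pow_right₀ hV1 (by omega)
          _ = 1 * V ^ D₂ := (one_mul _).symm
          _ ≤ N * V ^ D₂ := mul_le_mul_of_nonneg_right hN1 (by positivity)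
      calc len (c i j l) * V ^ D₀ ≤ H * Λ := mul_le_mul (hcl i hi j l) h1 (by positivity) hH0.le
        _ = Λ * H := mul_comm _ _
    -- notation
    set s : ι → (κ → Fin (d + 1)) → ℂ := fun i l => ∑ j, W j * aeval v (c i j l) with hs
    set M : ι → (κ → Fin (d + 1)) → ℂ := fun i l => ∏ k, v (i, k) ^ (l k : ℕ) with hM
    set a : J → ℂ := fun j => aeval v (A j) with ha
    have haeq : ∀ j, a j = ∑ l, aeval v (c i₀ j l) * M i₀ l := by
      intro j
      rw [ha, hA]
      simp only [map_sum, map_mul, aeval_mX, hM]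
    have hrho : ∑ j, W j * a j = ∑ l, s i₀ l * M i₀ l := by
      simp only [haeq, hs, Finset.mul_sum, Finset.sum_mul]
      rw [Finset.sum_comm]
      refine Finset.sum_congr rfl fun l _ => Finset.sum_congr rfl fun j _ => ?_
      ring
    set δ : ℝ := (H ^ (3 * B'' + b + 2))⁻¹ with hδ
    have hHB : 0 < H ^ (3 * B'' + b + 2) := by positivity
    have hδ0 : 0 < δ := by positivity
    have hsm' : ∀ i ∈ R, ‖∑ l, s i l * M i l‖ ≤ δ * K i := by
      intro i hi
      rw [hδ, inv_mul_eq_div, le_div_iff₀ hHB, mul_comm]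
      exact hsm i hi
    -- the new relations
    have hcardJ : Fintype.card {j : J // j ≠ j₀} = n := by
      rw [Fintype.card_subtype_compl, Fintype.card_subtype_eq, hJ]
      omega
    have hcardR : n < (R.erase i₀).card := by
      rw [Finset.card_erase_of_mem hi₀]
      omega
    have hnew : ∀ i ∈ R, ∀ l, ∑ j : {j : J // j ≠ j₀}, W j * aeval v (A j₀ * c i j l - A j * c i j₀ l) =
        a j₀ * s i l - aeval v (c i j₀ l) * ∑ l, s i₀ l * M i₀ l := by
      intro i hi l
      have h1 := Fintype.sum_eq_add_sum_subtype_ne (fun j => W j * aeval v (A j₀ * c i j l - A j * c i j₀ l)) j₀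
      have h2 : W j₀ * aeval v (A j₀ * c i j₀ l - A j₀ * c i j₀ l) = 0 := by rw [sub_self, map_zero, mul_zero]
      rw [h2, zero_add] at h1
      rw [← h1, ← hrho, hs]
      simp only [map_sub, map_mul, mul_sub, Finset.sum_sub_distrib, Finset.mul_sum]
      congr 1
      · refine Finset.sum_congr rfl fun j _ => ?_
        ring
      · refine Finset.sum_congr rfl fun j _ => ?_
        ring
    have hHb : 0 < H ^ b := by positivity
    have hkey1 : Λ * H * δ * (2 * H ^ b) ≤ 1 := by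
      rw [hδ]
      have h1 : Λ * H * (2 * H ^ b) ≤ H ^ (3 * B'' + b + 2) := by
        calc Λ * H * (2 * H ^ b) = (2 * Λ) * H ^ (b + 1) := by ring
          _ ≤ H * H ^ (b + 1) := mul_le_mul_of_nonneg_right (by linarith) (by positivity)
          _ = H ^ (b + 2) := by ring
          _ ≤ H ^ (3 * B'' + b + 2) := pow_le_pow_right₀ hH1 (by omega)
      calc Λ * H * (H ^ (3 * B'' + b + 2))⁻¹ * (2 * H ^ b) = (Λ * H * (2 * H ^ b)) * (H ^ (3 * B'' + b + 2))⁻¹ := by ring
        _ ≤ H ^ (3 * B'' + b + 2) * (H ^ (3 * B'' + b + 2))⁻¹ := mul_le_mul_of_nonneg_right h1 (by positivity)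
        _ = 1 := mul_inv_cancel₀ hHB.ne'
    have hkey2 : (H ^ 3) ^ B'' * (2 * (Λ * H * δ)) * (2 * H ^ b) ≤ 1 := by
      rw [hδ]
      have h1 : (H ^ 3) ^ B'' * (2 * (Λ * H)) * (2 * H ^ b) ≤ H ^ (3 * B'' + b + 2) := by
        rw [← pow_mul]
        calc H ^ (3 * B'') * (2 * (Λ * H)) * (2 * H ^ b) = (4 * Λ) * (H ^ (3 * B'') * H ^ b * H) := by ring
          _ ≤ H * (H ^ (3 * B'') * H ^ b * H) := mul_le_mul_of_nonneg_right hHΛ (by positivity)
          _ = H ^ (3 * B'' + b + 2) := by rw [pow_add, pow_add]; ring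
      calc (H ^ 3) ^ B'' * (2 * (Λ * H * (H ^ (3 * B'' + b + 2))⁻¹)) * (2 * H ^ b) =
            ((H ^ 3) ^ B'' * (2 * (Λ * H)) * (2 * H ^ b)) * (H ^ (3 * B'' + b + 2))⁻¹ := by ring
        _ ≤ H ^ (3 * B'' + b + 2) * (H ^ (3 * B'' + b + 2))⁻¹ := mul_le_mul_of_nonneg_right h1 (by positivity)
        _ = 1 := mul_inv_cancel₀ hHB.ne'
    have ha0 : (H ^ b)⁻¹ ≤ ‖a j₀‖ := by
      rw [inv_le_iff_one_le_mul₀ hHb, mul_comm]
      exact hlowA
    have haj : ‖a j₀‖ ≤ Λ * H := by
      rw [haeq]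
      exact hvA i₀ hi₀ j₀
    refine hH₁ (H ^ 3) (hHH₁.trans hHcu) {j : J // j ≠ j₀} hcardJ (R.erase i₀) hcardR (fun j => W j)
      (fun i j l => A j₀ * c i j l - A j * c i j₀ l) ?_ ?_ ?_ (fun i => K i * (2 * H ^ b)⁻¹) ?_ ?_ ?_
    · intro i hi j l
      have hiR := Finset.mem_of_mem_erase hi
      have hmono : (supported ℤ {p : ι × κ | p.1 ∉ R} : Subalgebra ℤ (MvPolynomial (ι × κ) ℤ)) ≤
          supported ℤ {p : ι × κ | p.1 ∉ R.erase i₀} :=
        supported_mono fun p hp hp2 => hp (Finset.mem_of_mem_erase hp2)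
      exact Subalgebra.sub_mem _ (Subalgebra.mul_mem _ (hAs j₀) (hmono (hcs i hiR _ _)))
        (Subalgebra.mul_mem _ (hAs _) (hmono (hcs i hiR _ _)))
    · intro i hi j l
      have hiR := Finset.mem_of_mem_erase hi
      refine (MvPolynomial.totalDegree_sub _ _).trans (max_le ?_ ?_)
      · refine (MvPolynomial.totalDegree_mul _ _).trans (add_le_add (hAd _) (hcd i hiR _ _))
      · refine (MvPolynomial.totalDegree_mul _ _).trans (add_le_add (hAd _) (hcd i hiR _ _))
    · intro i hi j l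
      have hiR := Finset.mem_of_mem_erase hi
      refine (len_sub _ _).trans ?_
      have h1 : ∀ j' j'', len (A j' * c i j'' l) ≤ N * H ^ 2 := by
        intro j' j''
        refine (len_mul _ _).trans ?_
        calc len (A j') * len (c i j'' l) ≤ (N * H) * H :=
              mul_le_mul (hAl j') (hcl i hiR _ _) (len_nonneg _) (by positivity)
          _ = N * H ^ 2 := by ring
      calc len (A j₀ * c i j l) + len (A j * c i j₀ l) ≤ N * H ^ 2 + N * H ^ 2 := add_le_add (h1 _ _) (h1 _ _)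
        _ = (2 * N) * H ^ 2 := by ring
        _ ≤ H * H ^ 2 := mul_le_mul_of_nonneg_right hHN (by positivity)
        _ = H ^ 3 := by ring
    · intro i hi
      exact mul_pos (hK i (Finset.mem_of_mem_erase hi)) (by positivity)
    · intro i hi
      have hiR := Finset.mem_of_mem_erase hi
      obtain ⟨l, hl⟩ := hex i hiR
      refine ⟨l, ?_⟩
      rw [hnew i hiR l]
      have h1 : ‖a j₀‖ * ‖s i l‖ - ‖aeval v (c i j₀ l)‖ * ‖∑ l, s i₀ l * M i₀ l‖ ≤
          ‖a j₀ * s i l - aeval v (c i j₀ l) * ∑ l, s i₀ l * M i₀ l‖ := by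
        rw [← norm_mul, ← norm_mul]
        exact norm_sub_norm_le _ _
      refine le_trans ?_ h1
      have h2 : (H ^ b)⁻¹ * K i ≤ ‖a j₀‖ * ‖s i l‖ := mul_le_mul ha0 hl (hK i hiR).le (norm_nonneg _)
      have h3 : ‖aeval v (c i j₀ l)‖ * ‖∑ l, s i₀ l * M i₀ l‖ ≤ (Λ * H) * (δ * K i) := by
        refine mul_le_mul (hvc i hiR _ _) ((hsm' i₀ hi₀).trans ?_) (norm_nonneg _) (by positivity)
        exact mul_le_mul_of_nonneg_left (hmin i hiR) hδ0.le
      have h4 : (Λ * H) * (δ * K i) ≤ K i * (2 * H ^ b)⁻¹ := by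
        have h5 : Λ * H * δ ≤ (2 * H ^ b)⁻¹ := by
          rw [← one_div, le_div_iff₀ (by positivity)]
          exact hkey1
        calc (Λ * H) * (δ * K i) = K i * (Λ * H * δ) := by ring
          _ ≤ _ := mul_le_mul_of_nonneg_left h5 (hK i hiR).le
      have h6 : (H ^ b)⁻¹ * K i = K i * (2 * H ^ b)⁻¹ + K i * (2 * H ^ b)⁻¹ := by
        field_simp
        ring
      linarith
    · intro i hi
      have hiR := Finset.mem_of_mem_erase hi
      have h1 : ∑ l, (∑ j : {j : J // j ≠ j₀}, W j * aeval v (A j₀ * c i j l - A j * c i j₀ l)) *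
          ∏ k, v (i, k) ^ (l k : ℕ) = a j₀ * (∑ l, s i l * M i l) -
          (∑ l, aeval v (c i j₀ l) * M i l) * ∑ l, s i₀ l * M i₀ l := by
        simp only [hnew i hiR]
        rw [Finset.mul_sum, Finset.sum_mul, ← Finset.sum_sub_distrib]
        refine Finset.sum_congr rfl fun l _ => ?_
        rw [sub_mul]
        ring
      rw [h1]
      have h2 : ‖a j₀ * (∑ l, s i l * M i l) - (∑ l, aeval v (c i j₀ l) * M i l) * ∑ l, s i₀ l * M i₀ l‖ ≤
          2 * (Λ * H * δ) * K i := by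
        refine (norm_sub_le _ _).trans ?_
        rw [norm_mul, norm_mul]
        have h3 : ‖a j₀‖ * ‖∑ l, s i l * M i l‖ ≤ (Λ * H) * (δ * K i) :=
          mul_le_mul haj (hsm' i hiR) (norm_nonneg _) (by positivity)
        have h4 : ‖∑ l, aeval v (c i j₀ l) * M i l‖ * ‖∑ l, s i₀ l * M i₀ l‖ ≤ (Λ * H) * (δ * K i) := by
          refine mul_le_mul (hvA i hiR _) ((hsm' i₀ hi₀).trans ?_) (norm_nonneg _) (by positivity)
          exact mul_le_mul_of_nonneg_left (hmin i hiR) hδ0.le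
        calc _ ≤ (Λ * H) * (δ * K i) + (Λ * H) * (δ * K i) := add_le_add h3 h4
          _ = _ := by ring
      calc (H ^ 3) ^ B'' * ‖a j₀ * (∑ l, s i l * M i l) - (∑ l, aeval v (c i j₀ l) * M i l) * ∑ l, s i₀ l * M i₀ l‖
          ≤ (H ^ 3) ^ B'' * (2 * (Λ * H * δ) * K i) := mul_le_mul_of_nonneg_left h2 (by positivity)
        _ = K i * ((H ^ 3) ^ B'' * (2 * (Λ * H * δ))) := by ring
        _ ≤ K i * (2 * H ^ b)⁻¹ := by
            refine mul_le_mul_of_nonneg_left ?_ (hK i hiR).le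
            rw [← one_div, le_div_iff₀ (by positivity)]
            exact hkey2

end Pool.Agent.Q246.NR
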