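import Pool.Agent.Q246.NR.Valc
import Pool.Agent.Q246.NR.Elim
import Pool.Agent.Y419.LB.Base

/-!
# Lower bounds for polynomials of arbitrary height in logarithms near `1`
-/

set_option autoImplicit false

open PowerSeries

namespace Pool.Agent.Q246.NR

open Pool.Agent.Y113 Pool.Agent.Y916 Pool.Agent.Y916.Al Pool.Agent.Y419.LB

/-! ### the logarithms as combinations of the functions `F T s` -/

/-- the polynomials of the partial fractions -/
noncomputable def pf {n : ℕ} {R : Type} [CommRing R] (θ : Fin n → R) (i : Fin n) : Polynomial R :=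
  Polynomial.C (-θ i) * ∏ j ∈ Finset.univ.erase i, (1 - Polynomial.C (θ j) * Polynomial.X)

lemma natDegree_lin {R : Type} [CommRing R] (a : R) : (1 - Polynomial.C a * Polynomial.X : Polynomial R).natDegree ≤ 1 := by
  refine (Polynomial.natDegree_sub_le _ _).trans (max_le ?_ ?_)
  · simp
  · exact (Polynomial.natDegree_C_mul_le _ _).trans Polynomial.natDegree_X_le

lemma natDegree_pf {n : ℕ} {R : Type} [CommRing R] (θ : Fin n → R) (i : Fin n) : (pf θ i).natDegree < n := by
  have hn : 0 < n := i.pos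
  rw [pf]
  refine lt_of_le_of_lt (Polynomial.natDegree_C_mul_le _ _) ?_
  refine lt_of_le_of_lt (Polynomial.natDegree_prod_le _ _) ?_
  refine lt_of_le_of_lt (Finset.sum_le_sum fun j _ => natDegree_lin (θ j)) ?_
  rw [Finset.sum_const, Finset.card_erase_of_mem (Finset.mem_univ i), Finset.card_univ, Fintype.card_fin,
    smul_eq_mul, mul_one]
  omega

lemma pf_mul {n : ℕ} {R : Type} [CommRing R] (θ : Fin n → R) (i : Fin n) :
    pf θ i * (1 - Polynomial.C (θ i) * Polynomial.X) =
      Polynomial.C (-θ i) * ∏ j, (1 - Polynomial.C (θ j) * Polynomial.X) := by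
  rw [pf, mul_assoc, Finset.prod_erase_mul _ _ (Finset.mem_univ i)]

lemma pf_map {n : ℕ} {R S : Type} [CommRing R] [CommRing S] (φ : R →+* S) (θ : Fin n → R) (i : Fin n) :
    (pf θ i).map φ = pf (fun j => φ (θ j)) i := by
  rw [pf, pf, Polynomial.map_mul, Polynomial.map_prod]
  simp

/-- the coefficients of the combination -/
lemma pf_coeff {n : ℕ} {T : Polynomial ℤ} (h0 : T.coeff 0 = 1) (θ : Fin n → ℂ)
    (hT : T.map (Int.castRingHom ℂ) = ∏ i, (1 - Polynomial.C (θ i) * Polynomial.X)) (i : Fin n) (m : ℕ) :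
    ∑ s : Fin n, (pf θ i).coeff s * ((coeff (m + 1) (F T s) : ℚ) : ℂ) = -θ i ^ (m + 1) / (m + 1) := by
  set UC : ℂ⟦X⟧ := PowerSeries.map (algebraMap ℚ ℂ) (U T) with hUC
  have hUc : ∀ l, coeff l UC = ((coeff l (U T) : ℚ) : ℂ) := fun l => by
    rw [hUC, PowerSeries.coeff_map]; rfl
  have hTU : (((T.map (Int.castRingHom ℂ)) : Polynomial ℂ) : ℂ⟦X⟧) * UC = 1 := by
    have h1 := congrArg (PowerSeries.map (algebraMap ℚ ℂ)) (ps_mul_U h0)
    rw [map_mul, map_one] at h1
    rw [← h1, hUC]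
    congr 1
    ext l
    rw [PowerSeries.coeff_map, coeff_ps, Polynomial.coeff_coe, Polynomial.coeff_map]
    simp
  have h1 : ((pf θ i : Polynomial ℂ) : ℂ⟦X⟧) * UC * ((1 - Polynomial.C (θ i) * Polynomial.X : Polynomial ℂ) : ℂ⟦X⟧) =
      PowerSeries.C (-θ i) := by
    have h2 := congrArg (fun P : Polynomial ℂ => (P : ℂ⟦X⟧)) (pf_mul θ i)
    simp only [Polynomial.coe_mul, Polynomial.coe_C] at h2
    rw [← hT] at h2
    rw [mul_right_comm, ← mul_one (PowerSeries.C (-θ i)), ← hTU]
    rw [← mul_assoc, ← h2]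
  have h3 : (PowerSeries.mk fun l => -θ i ^ (l + 1)) * ((1 - Polynomial.C (θ i) * Polynomial.X : Polynomial ℂ) : ℂ⟦X⟧) =
      PowerSeries.C (-θ i) := by
    have h4 : ((1 - Polynomial.C (θ i) * Polynomial.X : Polynomial ℂ) : ℂ⟦X⟧) = 1 - PowerSeries.C (θ i) * PowerSeries.X := by
      push_cast
      rfl
    rw [h4, mul_sub, mul_one]
    ext l
    rw [map_sub, ← mul_assoc, mul_comm (PowerSeries.mk _) (PowerSeries.C (θ i)), mul_assoc]
    rcases l with _ | l
    · rw [PowerSeries.coeff_C_mul, PowerSeries.coeff_zero_mul_X, mul_zero, sub_zero, PowerSeries.coeff_mk,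
        PowerSeries.coeff_C, if_pos rfl]
      simp
    · rw [PowerSeries.coeff_C_mul, PowerSeries.coeff_succ_mul_X, PowerSeries.coeff_mk, PowerSeries.coeff_mk,
        PowerSeries.coeff_C, if_neg (Nat.succ_ne_zero l)]
      ring
  have h5 : ((1 - Polynomial.C (θ i) * Polynomial.X : Polynomial ℂ) : ℂ⟦X⟧) ≠ 0 := by
    intro h
    have h6 := congrArg (PowerSeries.coeff 0) h
    simp at h6
  have h7 : ((pf θ i : Polynomial ℂ) : ℂ⟦X⟧) * UC = PowerSeries.mk fun l => -θ i ^ (l + 1) :=
    mul_right_cancel₀ h5 (h1.trans h3.symm)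
  have h8 := congrArg (PowerSeries.coeff m) h7
  rw [PowerSeries.coeff_mk] at h8
  have h9 : ((pf θ i : Polynomial ℂ) : ℂ⟦X⟧) = ∑ s : Fin n, PowerSeries.C ((pf θ i).coeff s) * PowerSeries.X ^ (s : ℕ) := by
    conv_lhs => rw [Polynomial.as_sum_range' (pf θ i) n (natDegree_pf θ i)]
    rw [← Fin.sum_univ_eq_sum_range (fun s => (Polynomial.monomial s ((pf θ i).coeff s) : Polynomial ℂ)) n]
    rw [show ((∑ s : Fin n, (Polynomial.monomial (s : ℕ) ((pf θ i).coeff s) : Polynomial ℂ) : Polynomial ℂ) : ℂ⟦X⟧) =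
      ∑ s : Fin n, ((Polynomial.monomial (s : ℕ) ((pf θ i).coeff s) : Polynomial ℂ) : ℂ⟦X⟧) from
        map_sum (Polynomial.coeToPowerSeries.ringHom (R := ℂ))
          (fun s : Fin n => (Polynomial.monomial (s : ℕ) ((pf θ i).coeff s) : Polynomial ℂ)) Finset.univ]
    refine Finset.sum_congr rfl fun s _ => ?_
    rw [← Polynomial.C_mul_X_pow_eq_monomial, Polynomial.coe_mul, Polynomial.coe_C, Polynomial.coe_pow, Polynomial.coe_X]
  rw [h9, Finset.sum_mul, map_sum] at h8
  rw [← h8, Finset.sum_div]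
  refine Finset.sum_congr rfl fun s _ => ?_
  rw [mul_assoc, PowerSeries.coeff_C_mul, PowerSeries.coeff_X_pow_mul', F, PowerSeries.coeff_mk, mul_div_assoc]
  congr 1
  by_cases hs : m + 1 ≤ s
  · rw [if_pos hs, if_neg (by omega)]
    simp
  · rw [if_neg hs, if_pos (by omega), hUc]
    have h10 : m + 1 - 1 - (s : ℕ) = m - s := by omega
    rw [h10]
    push_cast
    rfl

/-- the logarithm -/
lemma log_eq {n : ℕ} {T : Polynomial ℤ} (h0 : T.coeff 0 = 1) (θ : Fin n → ℂ)
    (hT : T.map (Int.castRingHom ℂ) = ∏ i, (1 - Polynomial.C (θ i) * Polynomial.X)) (x : ℂ)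
    (hcv : ∀ s : Fin n, Cvc x (F T s)) (i : Fin n) (hx : ‖θ i * x‖ < 1) :
    ∑ s : Fin n, (pf θ i).coeff s * evc x (F T s) = Complex.log (1 - θ i * x) := by
  have h1 : ∑ s : Fin n, (pf θ i).coeff s * evc x (F T s) =
      ∑' m : ℕ, (∑ s : Fin n, (pf θ i).coeff s * ((coeff m (F T s) : ℚ) : ℂ)) * x ^ m := by
    simp only [Finset.sum_mul]
    rw [Summable.tsum_finsetSum]
    · refine Finset.sum_congr rfl fun s _ => ?_
      rw [evc, ← tsum_mul_left]
      exact tsum_congr fun m => by ring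
    · intro s _
      have := ((hcv s).summable).mul_left ((pf θ i).coeff s)
      refine this.congr fun m => ?_
      ring
  rw [h1]
  have h2 := Complex.hasSum_taylorSeries_neg_log hx
  have h3 := h2.neg
  rw [neg_neg] at h3
  rw [← h3.tsum_eq]
  refine tsum_congr fun m => ?_
  rcases m with _ | m
  · have h4 : ∀ s : Fin n, coeff 0 (F T s) = 0 := by
      intro s
      rw [F, PowerSeries.coeff_mk, if_pos (Nat.zero_le _)]
    simp [h4]
  · rw [pf_coeff h0 θ hT i m, mul_pow]
    push_cast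
    ring

/-- `T` is a product of distinct factors -/
lemma sqf_of_prod {n : ℕ} {K : Type} [Field K] [CharZero K] {T : Polynomial ℤ} (θ : Fin n → K)
    (hT : T.map (Int.castRingHom K) = ∏ i, (1 - Polynomial.C (θ i) * Polynomial.X)) (hinj : Function.Injective θ)
    (hθ : ∀ i, θ i ≠ 0) : T.coeff 0 = 1 ∧ T.natDegree = n ∧ Squarefree (T.map (Int.castRingHom ℚ)) := by
  have hlin : ∀ i, (1 - Polynomial.C (θ i) * Polynomial.X : Polynomial K) =
      Polynomial.C (-θ i) * (Polynomial.X - Polynomial.C (θ i)⁻¹) := by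
    intro i
    rw [mul_sub, ← Polynomial.C_mul, neg_mul, mul_inv_cancel₀ (hθ i)]
    simp
    ring
  have hdeg : ∀ i, (1 - Polynomial.C (θ i) * Polynomial.X : Polynomial K).natDegree = 1 := by
    intro i
    rw [hlin, Polynomial.natDegree_C_mul (neg_ne_zero.2 (hθ i)), Polynomial.natDegree_X_sub_C]
  have hne : ∀ i, (1 - Polynomial.C (θ i) * Polynomial.X : Polynomial K) ≠ 0 := by
    intro i h
    have := hdeg i
    rw [h] at this
    simp at this
  refine ⟨?_, ?_, ?_⟩
  · have h1 := congrArg (Polynomial.eval 0) hT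
    rw [Polynomial.eval_prod] at h1
    simp only [Polynomial.eval_sub, Polynomial.eval_one, Polynomial.eval_mul, Polynomial.eval_X, mul_zero, sub_zero,
      Finset.prod_const_one] at h1
    rw [← Polynomial.coeff_zero_eq_eval_zero, Polynomial.coeff_map] at h1
    have h2 : ((T.coeff 0 : ℤ) : K) = ((1 : ℤ) : K) := by simpa using h1
    exact_mod_cast h2
  · have h1 : (T.map (Int.castRingHom K)).natDegree = n := by
      rw [hT, Polynomial.natDegree_prod _ _ (fun i _ => hne i), Finset.sum_congr rfl (fun i _ => hdeg i)]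
      simp
    rwa [Polynomial.natDegree_map_eq_of_injective (RingHom.injective_int _)] at h1
  · have h1 : (T.map (Int.castRingHom K)).Separable := by
      rw [hT]
      refine Polynomial.separable_prod ?_ ?_
      · intro i j hij
        change IsCoprime (1 - Polynomial.C (θ i) * Polynomial.X : Polynomial K)
          (1 - Polynomial.C (θ j) * Polynomial.X : Polynomial K)
        rw [hlin, hlin]
        have hu : ∀ i, IsUnit (Polynomial.C (-θ i)) := fun i => Polynomial.isUnit_C.2 (neg_ne_zero.2 (hθ i)).isUnit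
        rw [isCoprime_mul_units_left (hu i) (hu j)]
        refine Polynomial.isCoprime_X_sub_C_of_isUnit_sub ?_
        refine IsUnit.mk0 _ (sub_ne_zero.2 fun h => hij (hinj (inv_injective h)))
      · intro i
        rw [hlin]
        exact Polynomial.Separable.unit_mul (Polynomial.isUnit_C.2 (neg_ne_zero.2 (hθ i)).isUnit)
          Polynomial.separable_X_sub_C
    have : Algebra ℚ K := DivisionRing.toRatAlgebra
    have h2 : (T.map (Int.castRingHom ℚ)).map (algebraMap ℚ K) = T.map (Int.castRingHom K) := by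
      rw [Polynomial.map_map]
      congr 1
      exact RingHom.ext_int _ _
    rw [← h2, Polynomial.separable_map] at h1
    exact h1.squarefree

lemma hom_aeval {σ A B : Type} [CommRing A] [CommRing B] [Algebra ℤ A] [Algebra ℤ B] (φ : A →+* B) (f : σ → A)
    (Q : MvPolynomial σ ℤ) : φ (MvPolynomial.aeval f Q) = MvPolynomial.aeval (fun i => φ (f i)) Q := by
  rw [MvPolynomial.aeval_def, MvPolynomial.aeval_def, MvPolynomial.eval₂_comp_left]
  congr 1
  exact RingHom.ext_int _ _

lemma deg_aeval {σ τ R : Type} [CommRing R] [Algebra ℤ (MvPolynomial τ R)] (f : σ → MvPolynomial τ R) {a : ℕ} (hf : ∀ i, (f i).totalDegree ≤ a)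
    (Q : MvPolynomial σ ℤ) {D : ℕ} (hD : Q.totalDegree ≤ D) : (MvPolynomial.aeval f Q).totalDegree ≤ D * a := by
  classical
  rw [MvPolynomial.as_sum Q, map_sum]
  refine MvPolynomial.totalDegree_finsetSum_le fun d hd => ?_
  rw [MvPolynomial.aeval_monomial]
  refine (MvPolynomial.totalDegree_mul _ _).trans ?_
  have h1 : ((algebraMap ℤ (MvPolynomial τ R)) (Q.coeff d)).totalDegree = 0 := by
    have h2 : (algebraMap ℤ (MvPolynomial τ R)) (Q.coeff d) = MvPolynomial.C ((Q.coeff d : ℤ) : R) := by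
      rw [eq_intCast, map_intCast]
    rw [h2, MvPolynomial.totalDegree_C]
  rw [h1, zero_add, Finsupp.prod]
  refine (MvPolynomial.totalDegree_finset_prod _ _).trans ?_
  calc ∑ i ∈ d.support, (f i ^ d i).totalDegree ≤ ∑ i ∈ d.support, d i * a := by
        refine Finset.sum_le_sum fun i _ => ?_
        refine (MvPolynomial.totalDegree_pow _ _).trans ?_
        exact Nat.mul_le_mul_left _ (hf i)
    _ = (∑ i ∈ d.support, d i) * a := by rw [Finset.sum_mul]
    _ ≤ D * a := Nat.mul_le_mul_right _ ((MvPolynomial.le_totalDegree hd).trans hD)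

/-- lower bounds for polynomials of arbitrary height in the logarithms `log (1 - θ x)` -/
theorem logLowK (n D m A : ℕ) : ∃ E B : ℕ, ∀ (H : ℕ) (T : Polynomial ℤ) (K : IntermediateField ℚ ℂ) (x : K) (X : ℝ)
    (θ : Fin n → K), FiniteDimensional ℚ K → Module.finrank ℚ K ≤ m → x ≠ 0 → Pt K x X →
    ‖(x : ℂ)‖ * ((H : ℝ) + 2) ^ E ≤ 1 → X * ‖(x : ℂ)‖ ^ A ≤ 1 → (∀ l, |T.coeff l| ≤ H) →
    T.map (Int.castRingHom K) = ∏ i, (1 - Polynomial.C (θ i) * Polynomial.X) → Function.Injective θ →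
    (∀ i, θ i ≠ 0) → (∀ i, IsIntegral ℤ (θ i)) →
    Low (fun p : Fin n × Unit => Complex.log (1 - (θ p.1 : ℂ) * x)) D B := by
  obtain ⟨E, B, hEB⟩ := valcN n D m A
  obtain ⟨E₀, hE₀⟩ := Pool.Agent.Y419.LB.base_holds n
  refine ⟨E + (E₀ + 1) + (n + 1), B + 1, fun H T K x X θ hfd hrk hx0 hPt hxE hXA hH hT hinj hθ0 hθI => ?_⟩
  classical
  have : FiniteDimensional ℚ K := hfd
  have : NumberField K := { to_charZero := inferInstance, to_finiteDimensional := hfd }
  obtain ⟨h0, hd, hsq⟩ := sqf_of_prod θ hT hinj hθ0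
  have hB : (1 : ℝ) ≤ (H : ℝ) + 2 := one_le_base H
  have hH0 : (0 : ℝ) ≤ H := by positivity
  have hxp : 0 < ‖(x : ℂ)‖ := by
    rw [norm_pos_iff]
    exact_mod_cast hx0
  have hxR : ∀ a, a ≤ E + (E₀ + 1) + (n + 1) → ‖(x : ℂ)‖ * ((H : ℝ) + 2) ^ a ≤ 1 := fun a ha =>
    (mul_le_mul_of_nonneg_left (pow_le_pow_right₀ hB ha) (norm_nonneg _)).trans hxE
  obtain ⟨c, hc, hlow⟩ := hEB H T K x X hfd hrk hx0 hPt (hxR _ (by omega)) hXA h0 hd hsq hH
  -- convergence
  have hG := hE₀ H T h0 hd.le hH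
  have hcv : ∀ s : Fin n, Cvc (x : ℂ) (F T s) := by
    intro s
    refine Cvc.of_bound (A := ((H : ℝ) + 2) ^ E₀) (B := ((H : ℝ) + 2) ^ E₀) (by positivity) ?_
      fun m => ?_
    · refine lt_of_lt_of_le ?_ (hxR (E₀ + 1) (by omega))
      rw [mul_comm]
      refine mul_lt_mul_of_pos_left ?_ hxp
      exact pow_lt_pow_right₀ (by linarith) (by omega)
    · have := hG.size (some s) m
      rw [pow_succ'] at this
      rw [Complex.norm_ratCast]
      exact this
  -- the points
  have hTC : T.map (Int.castRingHom ℂ) = ∏ i, (1 - Polynomial.C ((θ i : K) : ℂ) * Polynomial.X) := by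
    have h1 := congrArg (Polynomial.map (algebraMap K ℂ)) hT
    rw [Polynomial.map_map, Polynomial.map_prod] at h1
    have h2 : (algebraMap K ℂ).comp (Int.castRingHom K) = Int.castRingHom ℂ := RingHom.ext_int _ _
    rw [h2] at h1
    rw [h1]
    refine Finset.prod_congr rfl fun i _ => ?_
    simp
  have hθx : ∀ i, ‖((θ i : K) : ℂ) * x‖ < 1 := by
    intro i
    by_contra hcon
    rw [not_lt] at hcon
    have hθC : ((θ i : K) : ℂ) ≠ 0 := by exact_mod_cast hθ0 i
    have h1 := Pool.Agent.Y419.AL.T_ne' (x := (((θ i : K) : ℂ))⁻¹) h0 hd hH (by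
      rw [norm_inv, inv_mul_le_iff₀ (norm_pos_iff.2 hθC), mul_one]
      have h2 := hxR (n + 1) (by omega)
      rw [norm_mul] at hcon
      have h3 : ((H : ℝ) + 2) ^ (n + 1) * ‖(x : ℂ)‖ ≤ ‖((θ i : K) : ℂ)‖ * ‖(x : ℂ)‖ := by
        rw [mul_comm]
        exact h2.trans hcon
      exact le_of_mul_le_mul_right h3 hxp)
    apply h1
    rw [Polynomial.aeval_def, ← Polynomial.eval_map]
    have h2 : T.map (algebraMap ℤ ℂ) = T.map (Int.castRingHom ℂ) := rfl
    rw [h2, hTC, Polynomial.eval_prod]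
    refine Finset.prod_eq_zero (Finset.mem_univ i) ?_
    simp [hθC]
  have hlog : ∀ i, ∑ s : Fin n, (pf (fun j => ((θ j : K) : ℂ)) i).coeff s * evc (x : ℂ) (F T s) =
      Complex.log (1 - ((θ i : K) : ℂ) * x) := fun i => log_eq h0 _ hTC _ hcv i (hθx i)
  -- the substitution
  set O := integralClosure ℤ K with hO
  set θ₀ : Fin n → O := fun i => ⟨θ i, hθI i⟩ with hθ₀
  set f₀ : Fin n × Unit → MvPolynomial (Fin n) O := fun p => ∑ s : Fin n, MvPolynomial.C ((pf θ₀ p.1).coeff s) *
    MvPolynomial.X s with hf₀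
  set f : Fin n × Unit → MvPolynomial (Fin n) K := fun p => ∑ s : Fin n, MvPolynomial.C ((pf θ p.1).coeff s) *
    MvPolynomial.X s with hf
  have hff₀ : ∀ p, MvPolynomial.map (algebraMap O K) (f₀ p) = f p := by
    intro p
    rw [hf₀, hf]
    simp only [map_sum, map_mul, MvPolynomial.map_C, MvPolynomial.map_X]
    refine Finset.sum_congr rfl fun s _ => ?_
    rw [← Polynomial.coeff_map, pf_map]
    rfl
  -- the bound for the coefficients
  set L : ℝ := 1 + ∑ σ : K →+* ℂ, ∑ i : Fin n, ∑ s : Fin n, ‖σ ((pf θ i).coeff s)‖ with hL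
  have hL1 : 1 ≤ L := by
    have : 0 ≤ ∑ σ : K →+* ℂ, ∑ i : Fin n, ∑ s : Fin n, ‖σ ((pf θ i).coeff s)‖ :=
      Finset.sum_nonneg fun _ _ => Finset.sum_nonneg fun _ _ => Finset.sum_nonneg fun _ _ => norm_nonneg _
    linarith
  have hLf : ∀ (σ : K →+* ℂ) (p : Fin n × Unit), len (MvPolynomial.map σ (f p)) ≤ L := by
    intro σ p
    rw [hf]
    simp only [map_sum, map_mul, MvPolynomial.map_C, MvPolynomial.map_X]
    refine (len_sum _ _).trans ?_
    have h1 : ∑ s : Fin n, len (MvPolynomial.C (σ ((pf θ p.1).coeff s)) * MvPolynomial.X s : MvPolynomial (Fin n) ℂ) ≤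
        ∑ s : Fin n, ‖σ ((pf θ p.1).coeff s)‖ := by
      refine Finset.sum_le_sum fun s _ => ?_
      refine (len_mul _ _).trans ?_
      rw [len_C, len_X, mul_one]
    refine h1.trans ?_
    have h2 := Finset.single_le_sum (f := fun i : Fin n => ∑ s : Fin n, ‖σ ((pf θ i).coeff s)‖)
      (fun _ _ => Finset.sum_nonneg fun _ _ => norm_nonneg _) (Finset.mem_univ p.1)
    have h3 := Finset.single_le_sum (f := fun σ : K →+* ℂ => ∑ i : Fin n, ∑ s : Fin n, ‖σ ((pf θ i).coeff s)‖)
      (fun _ _ => Finset.sum_nonneg fun _ _ => Finset.sum_nonneg fun _ _ => norm_nonneg _) (Finset.mem_univ σ)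
    linarith
  have hLD : 0 < L ^ D := by positivity
  refine ⟨max 1 ((L ^ D) ^ B / c), fun H' hH' Q hQ0 hQd hQl => ?_⟩
  have hH'1 : 1 ≤ H' := (le_max_left _ _).trans hH'
  have hH'c : (L ^ D) ^ B / c ≤ H' := (le_max_right _ _).trans hH'
  set P : MvPolynomial (Fin n) K := MvPolynomial.aeval f Q with hP
  have hPmap : MvPolynomial.map (algebraMap O K) (MvPolynomial.aeval f₀ Q) = P := by
    rw [hom_aeval, hP]
    simp only [hff₀]
  have hPI : ∀ d, IsIntegral ℤ (P.coeff d) := by
    intro d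
    rw [← hPmap, MvPolynomial.coeff_map]
    exact (MvPolynomial.coeff d (MvPolynomial.aeval f₀ Q)).2
  have hPh : ∀ d (σ : K →+* ℂ), ‖σ (P.coeff d)‖ ≤ H' * L ^ D := by
    intro d σ
    rw [← MvPolynomial.coeff_map, hP, hom_aeval]
    refine (norm_coeff_le_len _ _).trans ?_
    refine (len_aeval (fun a => by rw [Complex.norm_intCast]) _ hL1 (hLf σ) Q hQd).trans ?_
    exact mul_le_mul_of_nonneg_right hQl hLD.le
  have hPd : P.totalDegree ≤ D := by
    have h1 := deg_aeval f (a := 1) (fun p => by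
      rw [hf]
      refine MvPolynomial.totalDegree_finsetSum_le fun s _ => ?_
      refine (MvPolynomial.totalDegree_mul _ _).trans ?_
      rw [MvPolynomial.totalDegree_C, MvPolynomial.totalDegree_X]) Q hQd
    rwa [mul_one] at h1
  have hP0 : P ≠ 0 := by
    set dd : Fin n → Fin n → K := fun s j => (θ j)⁻¹ ^ (s : ℕ) / (pf θ j).eval (θ j)⁻¹ with hdd
    have hpf0 : ∀ i j, i ≠ j → (pf θ i).eval (θ j)⁻¹ = 0 := by
      intro i j hij
      rw [pf, Polynomial.eval_mul, Polynomial.eval_prod]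
      refine mul_eq_zero_of_right _ (Finset.prod_eq_zero (Finset.mem_erase.2 ⟨hij.symm, Finset.mem_univ j⟩) ?_)
      simp [hθ0 j]
    have hpf1 : ∀ i, (pf θ i).eval (θ i)⁻¹ ≠ 0 := by
      intro i
      rw [pf, Polynomial.eval_mul, Polynomial.eval_prod]
      refine mul_ne_zero ?_ (Finset.prod_ne_zero_iff.2 fun j hj => ?_)
      · rw [Polynomial.eval_C]
        exact neg_ne_zero.2 (hθ0 i)
      · have hji := (Finset.mem_erase.1 hj).1
        simp only [Polynomial.eval_sub, Polynomial.eval_one, Polynomial.eval_mul, Polynomial.eval_C, Polynomial.eval_X]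
        intro h1
        apply hji
        apply hinj
        have h2 : θ j * (θ i)⁻¹ = 1 := (sub_eq_zero.1 h1).symm
        exact (mul_inv_eq_one₀ (hθ0 i)).1 h2
    set g : Fin n → MvPolynomial (Fin n × Unit) K := fun s => ∑ j : Fin n, MvPolynomial.C (dd s j) *
      MvPolynomial.X (j, ()) with hg
    have hgf : ∀ p, MvPolynomial.aeval g (f p) = MvPolynomial.X p := by
      intro p
      rw [hf]
      simp only [map_sum, map_mul, MvPolynomial.aeval_X, MvPolynomial.aeval_C, MvPolynomial.algebraMap_eq]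
      simp only [hg, Finset.mul_sum]
      rw [Finset.sum_comm, Finset.sum_eq_single p.1]
      · have h1 : ∀ s : Fin n, (MvPolynomial.C ((pf θ p.1).coeff s) * (MvPolynomial.C (dd s p.1) *
            MvPolynomial.X (p.1, ())) : MvPolynomial (Fin n × Unit) K) =
            MvPolynomial.C ((pf θ p.1).coeff s * (θ p.1)⁻¹ ^ (s : ℕ) / (pf θ p.1).eval (θ p.1)⁻¹) * MvPolynomial.X p := by
          intro s
          rw [← mul_assoc, ← MvPolynomial.C_mul, hdd, mul_div_assoc]
        rw [Finset.sum_congr rfl fun s _ => h1 s, ← Finset.sum_mul, ← map_sum, ← Finset.sum_div]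
        have h2 : ∑ s : Fin n, (pf θ p.1).coeff s * (θ p.1)⁻¹ ^ (s : ℕ) = (pf θ p.1).eval (θ p.1)⁻¹ := by
          rw [Polynomial.eval_eq_sum_range' (natDegree_pf θ p.1),
            ← Fin.sum_univ_eq_sum_range (fun s => (pf θ p.1).coeff s * (θ p.1)⁻¹ ^ s) n]
        rw [h2, div_self (hpf1 _), MvPolynomial.C_1, one_mul]
      · intro j _ hj
        have h1 : ∀ s : Fin n, (MvPolynomial.C ((pf θ p.1).coeff s) * (MvPolynomial.C (dd s j) *
            MvPolynomial.X (j, ())) : MvPolynomial (Fin n × Unit) K) =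
            MvPolynomial.C ((pf θ p.1).coeff s * (θ j)⁻¹ ^ (s : ℕ) / (pf θ j).eval (θ j)⁻¹) * MvPolynomial.X (j, ()) := by
          intro s
          rw [← mul_assoc, ← MvPolynomial.C_mul, hdd, mul_div_assoc]
        rw [Finset.sum_congr rfl fun s _ => h1 s, ← Finset.sum_mul, ← map_sum, ← Finset.sum_div]
        have h2 : ∑ s : Fin n, (pf θ p.1).coeff s * (θ j)⁻¹ ^ (s : ℕ) = (pf θ p.1).eval (θ j)⁻¹ := by
          rw [Polynomial.eval_eq_sum_range' (natDegree_pf θ p.1),
            ← Fin.sum_univ_eq_sum_range (fun s => (pf θ p.1).coeff s * (θ j)⁻¹ ^ s) n]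
        rw [h2, hpf0 _ _ (Ne.symm hj), zero_div, MvPolynomial.C_0, zero_mul]
      · intro h
        exact absurd (Finset.mem_univ _) h
    intro h1
    have h2 : MvPolynomial.aeval g P = MvPolynomial.map (Int.castRingHom K) Q := by
      have h3 := hom_aeval (MvPolynomial.aeval g : MvPolynomial (Fin n) K →ₐ[K] MvPolynomial (Fin n × Unit) K).toRingHom f Q
      have h4 := hom_aeval (MvPolynomial.map (Int.castRingHom K) : MvPolynomial (Fin n × Unit) ℤ →+* _)
        MvPolynomial.X Q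
      rw [MvPolynomial.aeval_X_left_apply] at h4
      rw [h4, hP]
      refine h3.trans ?_
      congr 2
      funext p
      rw [MvPolynomial.map_X]
      exact hgf p
    rw [h1, map_zero] at h2
    apply hQ0
    apply MvPolynomial.map_injective (Int.castRingHom K) (RingHom.injective_int _)
    rw [← h2, map_zero]
  have hval : MvPolynomial.aeval (fun s : Fin n => evc (x : ℂ) (F T s)) P =
      MvPolynomial.aeval (fun p : Fin n × Unit => Complex.log (1 - ((θ p.1 : K) : ℂ) * x)) Q := by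
    have h3 := hom_aeval (MvPolynomial.aeval (fun s : Fin n => evc (x : ℂ) (F T s)) :
      MvPolynomial (Fin n) K →ₐ[K] ℂ).toRingHom f Q
    rw [hP]
    refine h3.trans ?_
    congr 2
    funext p
    rw [← hlog p.1]
    change MvPolynomial.aeval (fun s : Fin n => evc (x : ℂ) (F T s)) (f p) = _
    rw [hf]
    simp only [map_sum, map_mul, MvPolynomial.aeval_X, MvPolynomial.aeval_C]
    refine Finset.sum_congr rfl fun s _ => ?_
    congr 1
    have h5 := pf_map (algebraMap K ℂ) θ p.1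
    change _ = (pf (fun j => algebraMap K ℂ (θ j)) p.1).coeff s
    rw [← h5, Polynomial.coeff_map]
  have hmain := hlow P (H' * L ^ D) hP0 hPd (one_le_mul_of_one_le_of_one_le hH'1 (one_le_pow₀ hL1)) hPI hPh
  rw [hval, mul_pow] at hmain
  have hLB : 0 < (L ^ D) ^ B := by positivity
  set v := ‖MvPolynomial.aeval (fun p : Fin n × Unit => Complex.log (1 - ((θ p.1 : K) : ℂ) * x)) Q‖ with hv
  have h1 : (L ^ D) ^ B ≤ H' * c := by
    rwa [div_le_iff₀ hc] at hH'c
  have h2 : (L ^ D) ^ B ≤ (H' ^ (B + 1) * v) * (L ^ D) ^ B := by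
    calc (L ^ D) ^ B ≤ H' * c := h1
      _ ≤ H' * (v * (H' ^ B * (L ^ D) ^ B)) := mul_le_mul_of_nonneg_left hmain (by linarith)
      _ = (H' ^ (B + 1) * v) * (L ^ D) ^ B := by ring
  exact le_of_mul_le_mul_right (by rwa [one_mul]) hLB


end Pool.Agent.Q246.NR
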