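import Pool.Agent.Q246.NR.Elim

/-!
# Near relations with arbitrary constants
-/

set_option autoImplicit false

namespace Pool.Agent.Q246.NR

/-- the numbers `g l` satisfy a relation whose coefficients are integer combinations of the constants
`ξ s`, up to `δ` times one of the coefficients -/
def RelA {h ι : Type} [Fintype h] [Fintype ι] (ξ : h → ℂ) (g : ι → ℂ) (H δ : ℝ) : Prop :=
  ∃ c : ι → h → ℤ, (∀ l s, |(c l s : ℝ)| ≤ H) ∧ ∃ l₀, ∑ s, ξ s * (c l₀ s : ℂ) ≠ 0 ∧
    ‖∑ l, (∑ s, ξ s * (c l s : ℂ)) * g l‖ ≤ δ * ‖∑ s, ξ s * (c l₀ s : ℂ)‖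

lemma RelA.mono {h ι : Type} [Fintype h] [Fintype ι] {ξ : h → ℂ} {g : ι → ℂ} {H δ H' δ' : ℝ} (hr : RelA ξ g H δ)
    (hH : H ≤ H') (hδ : δ ≤ δ') : RelA ξ g H' δ' := by
  obtain ⟨c, hc, l₀, hl₀, hs⟩ := hr
  exact ⟨c, fun l s => (hc l s).trans hH, l₀, hl₀, hs.trans (mul_le_mul_of_nonneg_right hδ (norm_nonneg _))⟩

/-- few points satisfy a near relation with the same constants -/
theorem elim_rel (B : ℕ → ℕ) (κ : Type) [Fintype κ] [DecidableEq κ] (d n : ℕ) : ∃ Dm B' : ℕ,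
    ∀ (ι : Type) [Finite ι] (v : ι × κ → ℂ), (∀ D ≤ Dm, Low v D (B D)) → ∃ H₀ : ℝ, ∀ H : ℝ, H₀ ≤ H →
    ∀ (J : Type) [Fintype J], Fintype.card J = n → ∀ ξ : J → ℂ, ∀ R : Finset ι, n < R.card →
    ¬ ∀ i ∈ R, RelA ξ (fun l : κ → Fin (d + 1) => ∏ k, v (i, k) ^ (l k : ℕ)) H (H ^ B')⁻¹ := by
  obtain ⟨Dm, B', h⟩ := elim B κ d n 0
  refine ⟨Dm, B', fun ι _ v hlow => ?_⟩
  obtain ⟨H₁, hH₁⟩ := h ι v hlow
  refine ⟨max H₁ 1, fun H hH J _ hJ ξ R hR hrel => ?_⟩
  have hH1 : 1 ≤ H := (le_max_right _ _).trans hH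
  have hH0 : 0 < H ^ B' := by positivity
  choose! c hc l₀ hl₀ hs using hrel
  have hev : ∀ i l, ∑ j, ξ j * MvPolynomial.aeval v (MvPolynomial.C (c i l j) : MvPolynomial (ι × κ) ℤ) =
      ∑ j, ξ j * (c i l j : ℂ) := by
    intro i l
    refine Finset.sum_congr rfl fun j _ => ?_
    rw [MvPolynomial.aeval_C]
    simp
  refine hH₁ H ((le_max_left _ _).trans hH) J hJ R hR ξ (fun i j l => MvPolynomial.C (c i l j)) ?_ ?_ ?_
    (fun i => ‖∑ s, ξ s * (c i (l₀ i) s : ℂ)‖) ?_ ?_ ?_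
  · intro i _ j l
    exact Subalgebra.algebraMap_mem _ _
  · intro i _ j l
    rw [MvPolynomial.totalDegree_C]
  · intro i hi j l
    rw [len_C]
    exact hc i hi l j
  · intro i hi
    exact norm_pos_iff.2 (hl₀ i hi)
  · intro i hi
    refine ⟨l₀ i, ?_⟩
    rw [hev]
  · intro i hi
    simp only [hev]
    have h1 := hs i hi
    rw [inv_mul_eq_div, le_div_iff₀ hH0, mul_comm] at h1
    exact h1

/-! ### translation of the variable -/

lemma taylor_coeff' {d : ℕ} (p : Polynomial ℂ) (hp : p.natDegree ≤ d) (r : ℂ) (j : ℕ) :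
    (Polynomial.taylor r p).coeff j = ∑ a : Fin (d + 1), (((a + j).choose j : ℕ) : ℂ) * p.coeff (a + j) * r ^ (a : ℕ) := by
  rw [Polynomial.taylor_coeff, Polynomial.eval_eq_sum_range' (n := d + 1),
    ← Fin.sum_univ_eq_sum_range (fun a => (Polynomial.hasseDeriv j p).coeff a * r ^ a) (d + 1)]
  · refine Finset.sum_congr rfl fun a _ => ?_
    rw [Polynomial.hasseDeriv_coeff]
  · have := Polynomial.natDegree_hasseDeriv_le p j
    omega

/-- translation of the variable -/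
theorem shift {J : Type} [Fintype J] (d : ℕ) (ξ : J → ℂ) (r y : ℂ) (H δ : ℝ) (hH : 0 ≤ H) (hδ : 0 ≤ δ)
    (hrel : RelA ξ (fun l : Unit → Fin (d + 1) => ∏ k : Unit, (r + y) ^ (l k : ℕ)) H δ) :
    RelA (fun p : J × Fin (d + 1) => ξ p.1 * r ^ (p.2 : ℕ)) (fun l : Unit → Fin (d + 1) => ∏ k : Unit, y ^ (l k : ℕ))
      (2 ^ d * H) (δ * ((d + 1) * 2 ^ d * (max 1 ‖r‖) ^ d)) := by
  classical
  obtain ⟨c, hc, l₀, hl₀, hs⟩ := hrel
  set e : (Unit → Fin (d + 1)) ≃ Fin (d + 1) := Equiv.funUnique Unit (Fin (d + 1)) with he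
  set W : Fin (d + 1) → ℂ := fun l => ∑ s, ξ s * (c (fun _ => l) s : ℂ) with hW
  have hWl : ∀ l : Unit → Fin (d + 1), ∑ s, ξ s * (c l s : ℂ) = W (l ()) := by
    intro l
    rw [hW]
  set p : Polynomial ℂ := ∑ l : Fin (d + 1), Polynomial.monomial (l : ℕ) (W l) with hp
  have hpc : ∀ a : ℕ, p.coeff a = if h : a < d + 1 then W ⟨a, h⟩ else 0 := by
    intro a
    rw [hp, Polynomial.finsetSum_coeff]
    simp only [Polynomial.coeff_monomial]
    split_ifs with h
    · rw [Finset.sum_eq_single ⟨a, h⟩]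
      · simp
      · intro b _ hb
        rw [if_neg]
        intro h2
        exact hb (Fin.ext h2)
      · intro h2
        exact absurd (Finset.mem_univ _) h2
    · refine Finset.sum_eq_zero fun b _ => ?_
      rw [if_neg]
      have := b.2
      omega
  have hpd : p.natDegree ≤ d := by
    rw [Polynomial.natDegree_le_iff_coeff_eq_zero]
    intro a ha
    rw [hpc, dif_neg (by omega)]
  set q : Polynomial ℂ := Polynomial.taylor r p with hq
  have hqd : q.natDegree ≤ d := by rw [hq, Polynomial.natDegree_taylor]; exact hpd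
  have hpq : p = Polynomial.taylor (-r) q := by
    rw [hq, Polynomial.taylor_taylor]
    simp
  have hpe : ∀ z, p.eval z = ∑ l : Fin (d + 1), W l * z ^ (l : ℕ) := by
    intro z
    rw [hp, Polynomial.eval_finsetSum]
    simp only [Polynomial.eval_monomial]
  have hqe : ∀ z, q.eval z = ∑ l : Fin (d + 1), q.coeff l * z ^ (l : ℕ) := by
    intro z
    rw [Polynomial.eval_eq_sum_range' (Nat.lt_succ_of_le hqd),
      ← Fin.sum_univ_eq_sum_range (fun a => q.coeff a * z ^ a) (d + 1)]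
  -- the new coefficients
  set c' : (Unit → Fin (d + 1)) → J × Fin (d + 1) → ℤ := fun l t =>
    if h : (t.2 : ℕ) + l () < d + 1 then (((t.2 + l () : ℕ).choose (l ()) : ℕ) : ℤ) * c (fun _ => ⟨t.2 + l (), h⟩) t.1
      else 0 with hc'
  have hcoef : ∀ l : Unit → Fin (d + 1), ∑ t : J × Fin (d + 1), (ξ t.1 * r ^ (t.2 : ℕ)) * (c' l t : ℂ) = q.coeff (l ()) := by
    intro l
    rw [hq, taylor_coeff' p hpd, Fintype.sum_prod_type, Finset.sum_comm]
    refine Finset.sum_congr rfl fun a _ => ?_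
    rw [hpc]
    by_cases h : (a : ℕ) + l () < d + 1
    · rw [dif_pos h, hW]
      simp only [hc', dif_pos h]
      rw [Finset.mul_sum, Finset.sum_mul]
      refine Finset.sum_congr rfl fun s _ => ?_
      push_cast
      ring
    · rw [dif_neg h]
      simp only [hc', dif_neg h]
      simp
  -- the large coefficient
  set M : ℝ := max 1 ‖r‖ with hM
  have hM1 : 1 ≤ M := le_max_left _ _
  have hMr : ‖r‖ ≤ M := le_max_right _ _
  obtain ⟨j, hj⟩ : ∃ j : Fin (d + 1), ‖W (l₀ ())‖ ≤ ((d + 1) * 2 ^ d * M ^ d) * ‖q.coeff j‖ := by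
    obtain ⟨j, -, hj⟩ := Finset.exists_max_image (Finset.univ : Finset (Fin (d + 1))) (fun j => ‖q.coeff j‖)
      ⟨0, Finset.mem_univ _⟩
    refine ⟨j, ?_⟩
    have h1 : W (l₀ ()) = p.coeff (l₀ ()) := by
      rw [hpc, dif_pos (l₀ ()).2]
    rw [h1, hpq, taylor_coeff' q hqd]
    refine (norm_sum_le _ _).trans ?_
    have h2 : ∀ a : Fin (d + 1), ‖(((a + l₀ () : ℕ).choose (l₀ ()) : ℕ) : ℂ) * q.coeff (a + l₀ ()) * (-r) ^ (a : ℕ)‖ ≤
        2 ^ d * M ^ d * ‖q.coeff j‖ := by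
      intro a
      rw [norm_mul, norm_mul, Complex.norm_natCast, norm_pow, norm_neg]
      by_cases h : (a : ℕ) + l₀ () < d + 1
      · have h3 : (((a + l₀ () : ℕ).choose (l₀ ()) : ℕ) : ℝ) ≤ 2 ^ d := by
          have h4 : (a + l₀ () : ℕ).choose (l₀ ()) ≤ 2 ^ d :=
            (Nat.choose_le_two_pow _ _).trans (Nat.pow_le_pow_right (by norm_num) (by omega))
          exact_mod_cast h4
        have h4 : ‖q.coeff (a + l₀ ())‖ ≤ ‖q.coeff j‖ := hj ⟨a + l₀ (), h⟩ (Finset.mem_univ _)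
        have h5 : ‖r‖ ^ (a : ℕ) ≤ M ^ d :=
          (pow_le_pow_left₀ (norm_nonneg _) hMr _).trans (pow_le_pow_right₀ hM1 (by omega))
        calc (((a + l₀ () : ℕ).choose (l₀ ()) : ℕ) : ℝ) * ‖q.coeff (a + l₀ ())‖ * ‖r‖ ^ (a : ℕ) ≤
              2 ^ d * ‖q.coeff j‖ * M ^ d :=
              mul_le_mul (mul_le_mul h3 h4 (norm_nonneg _) (by positivity)) h5 (by positivity) (by positivity)
          _ = _ := by ring
      · rw [Polynomial.coeff_eq_zero_of_natDegree_lt (by omega : q.natDegree < a + l₀ ()), norm_zero, mul_zero, zero_mul]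
        positivity
    refine (Finset.sum_le_sum fun a _ => h2 a).trans ?_
    rw [Finset.sum_const, Finset.card_univ, Fintype.card_fin, nsmul_eq_mul]
    push_cast
    apply le_of_eq
    ring
  have hWpos : 0 < ‖W (l₀ ())‖ := by
    rw [norm_pos_iff, ← hWl]
    exact hl₀
  refine ⟨c', ?_, fun _ => j, ?_, ?_⟩
  · intro l t
    simp only [hc']
    split_ifs with h
    · push_cast
      rw [abs_mul, Nat.abs_cast]
      refine mul_le_mul ?_ (hc _ _) (abs_nonneg _) (by positivity)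
      have h4 : (t.2 + l () : ℕ).choose (l ()) ≤ 2 ^ d :=
        (Nat.choose_le_two_pow _ _).trans (Nat.pow_le_pow_right (by norm_num) (by omega))
      exact_mod_cast h4
    · simp only [Int.cast_zero, abs_zero]
      positivity
  · intro h
    have h9 : q.coeff j = 0 := (hcoef (fun _ => j)).symm.trans h
    rw [h9, norm_zero, mul_zero] at hj
    linarith
  · have h9 : ∑ t : J × Fin (d + 1), (ξ t.1 * r ^ (t.2 : ℕ)) * (c' (fun _ => j) t : ℂ) = q.coeff j := hcoef (fun _ => j)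
    rw [h9]
    simp only [hcoef]
    have h1 : ∑ l : Unit → Fin (d + 1), q.coeff (l ()) * ∏ k : Unit, y ^ (l k : ℕ) = q.eval y := by
      rw [hqe, ← e.sum_comp]
      refine Finset.sum_congr rfl fun l _ => ?_
      simp [he]
    have h2 : ∑ l : Unit → Fin (d + 1), (∑ s, ξ s * (c l s : ℂ)) * ∏ k : Unit, (r + y) ^ (l k : ℕ) = p.eval (r + y) := by
      rw [hpe, ← e.sum_comp]
      refine Finset.sum_congr rfl fun l _ => ?_
      rw [hWl]
      simp [he]
    rw [h1]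
    rw [h2, hWl] at hs
    have h3 : q.eval y = p.eval (r + y) := by
      rw [hq, Polynomial.taylor_eval, add_comm]
    rw [h3]
    refine hs.trans ?_
    rw [mul_assoc]
    exact mul_le_mul_of_nonneg_left hj hδ

end Pool.Agent.Q246.NR
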