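import Pool.Agent.Q246.NR.LogLow
import Pool.Agent.Q246.NR.Rel

/-!
# Logarithms of integers in short windows
-/

set_option autoImplicit false

namespace Pool.Agent.Q246.NR

open Pool.Agent.Y916.Al Pool.Agent.Y419.LB

lemma Dm_prod {n : ℕ} (f : Fin n → Polynomial ℤ) {A : ℝ} (hf : ∀ i, Dm (f i) A) : Dm (∏ i, f i) (A ^ n) := by
  classical
  have h1 : ∀ s : Finset (Fin n), Dm (∏ i ∈ s, f i) (A ^ s.card) := by
    intro s
    induction s using Finset.induction_on with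
    | empty => simpa using Dm.one
    | insert a s ha ih =>
      rw [Finset.prod_insert ha, Finset.card_insert_of_notMem ha, pow_succ']
      exact (hf a).mul ih
  have := h1 Finset.univ
  rwa [Finset.card_univ, Fintype.card_fin] at this

/-- the values `log (1 - g / t)` for integers `g` -/
theorem lowInt (n D : ℕ) (hn : 1 ≤ n) : ∃ E B : ℕ, ∀ (H t : ℕ) (g : Fin n → ℕ), (H + 2) ^ E ≤ t →
    (∀ i, g i ≤ H) → Function.Injective g →
    Low (fun p : Fin n × Unit => Complex.log (1 - ((g p.1 : ℂ) + 1) / ((t : ℂ) + 1))) D B := by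
  obtain ⟨E, B, hEB⟩ := logLowK n D 1 1
  refine ⟨(n + 1) * E, B, fun H t g hHt hg hinj => ?_⟩
  set K : IntermediateField ℚ ℂ := ⊥ with hK
  set x : K := ((t : K) + 1)⁻¹ with hx
  have hxC : (x : ℂ) = ((t : ℂ) + 1)⁻¹ := by
    rw [hx]
    push_cast
    rfl
  have ht0 : (0 : ℝ) < (t : ℝ) + 1 := by positivity
  have hxn : ‖(x : ℂ)‖ = ((t : ℝ) + 1)⁻¹ := by
    rw [hxC, norm_inv]
    congr 1
    have h1 : ((t : ℂ) + 1) = (((t + 1 : ℕ)) : ℂ) := by push_cast; rfl
    rw [h1, Complex.norm_natCast]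
    push_cast
    rfl
  set T : Polynomial ℤ := ∏ i, (1 - Polynomial.C ((g i : ℤ) + 1) * Polynomial.X) with hT
  have hTc : ∀ l, |T.coeff l| ≤ (((H + 2) ^ n : ℕ) : ℤ) := by
    intro l
    have h1 : Dm T (((H : ℝ) + 2) ^ n) := by
      refine Dm_prod _ fun i => ?_
      have h2 : Dm (1 - Polynomial.C ((g i : ℤ) + 1) * Polynomial.X) (1 + ((g i : ℝ) + 1)) := by
        rw [sub_eq_add_neg]
        refine Dm.one.add (Dm.neg ?_)
        refine ⟨Polynomial.C ((g i : ℝ) + 1) * Polynomial.X, fun l => ?_, ?_⟩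
        · rw [Polynomial.coeff_C_mul, Polynomial.coeff_C_mul, Polynomial.coeff_X, Polynomial.coeff_X]
          split_ifs
          · push_cast
            simp only [mul_one]
            rw [abs_of_nonneg (by positivity)]
          · simp
        · simp
      refine h2.mono ?_
      have : (g i : ℝ) ≤ H := by exact_mod_cast hg i
      linarith
    have h2 := h1.coeff l
    have h3 : ((|T.coeff l| : ℤ) : ℝ) ≤ ((((H + 2) ^ n : ℕ) : ℤ) : ℝ) := by
      push_cast
      exact h2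
    exact_mod_cast h3
  have hH2 : ((((H + 2) ^ n : ℕ) : ℝ) + 2) ≤ ((H : ℝ) + 2) ^ (n + 1) := by
    push_cast
    have h1 : (2 : ℝ) ≤ ((H : ℝ) + 2) ^ n := by
      calc (2 : ℝ) ≤ (H : ℝ) + 2 := by linarith [show (0 : ℝ) ≤ H by positivity]
        _ ≤ ((H : ℝ) + 2) ^ n := le_self_pow₀ (by linarith [show (0 : ℝ) ≤ H by positivity]) (by omega)
    rw [pow_succ]
    nlinarith [show (0 : ℝ) ≤ H by positivity]
  have hfd : FiniteDimensional ℚ K := by rw [hK]; infer_instance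
  have hrk : Module.finrank ℚ K ≤ 1 := by rw [hK, IntermediateField.finrank_bot]
  have hx0 : x ≠ 0 := by
    intro h
    have h1 : ‖(x : ℂ)‖ = 0 := by rw [h]; simp
    rw [hxn] at h1
    have : ((t : ℝ) + 1)⁻¹ ≠ 0 := by positivity
    exact this h1
  have hPt : Pt K x ((t : ℝ) + 1) := by
    refine ⟨1, (t : K) + 1, isIntegral_one, (isIntegral_natCast _).add isIntegral_one, ?_, ?_, fun σ => ⟨?_, ?_⟩⟩
    · intro h
      apply hx0
      rw [hx, h, inv_zero]
    · rw [hx, one_div]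
    · rw [map_one, norm_one]
      linarith [show (0 : ℝ) ≤ t by positivity]
    · rw [map_add, map_one, map_natCast]
      have h1 : ((t : ℂ) + 1) = (((t + 1 : ℕ)) : ℂ) := by push_cast; rfl
      rw [h1, Complex.norm_natCast]
      push_cast
      exact le_rfl
  have hmain := hEB ((H + 2) ^ n) T K x ((t : ℝ) + 1) (fun i => (g i : K) + 1) hfd hrk hx0 hPt (by
      rw [hxn, inv_mul_le_iff₀ ht0, mul_one]
      calc ((((H + 2) ^ n : ℕ) : ℝ) + 2) ^ E ≤ (((H : ℝ) + 2) ^ (n + 1)) ^ E :=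
            pow_le_pow_left₀ (by positivity) hH2 _
        _ = (((H + 2) ^ ((n + 1) * E) : ℕ) : ℝ) := by rw [← pow_mul]; push_cast; rfl
        _ ≤ (t : ℝ) := by exact_mod_cast hHt
        _ ≤ t + 1 := by linarith) (by
      rw [pow_one, hxn, mul_inv_cancel₀ ht0.ne']) hTc (by
      rw [hT, Polynomial.map_prod]
      refine Finset.prod_congr rfl fun i _ => ?_
      simp) (by
      intro i j hij
      have h1 : (g i : K) = g j := by
        have : (g i : K) + 1 = g j + 1 := hij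
        exact add_right_cancel this
      exact hinj (by exact_mod_cast h1)) (fun i => by
      have : ((g i + 1 : ℕ) : K) ≠ 0 := Nat.cast_ne_zero.2 (Nat.succ_ne_zero (g i))
      push_cast at this
      exact this) (fun i => (isIntegral_natCast (g i)).add isIntegral_one)
  have h1 : (fun p : Fin n × Unit => Complex.log (1 - ((((g p.1 : K) + 1 : K)) : ℂ) * x)) =
      (fun p : Fin n × Unit => Complex.log (1 - ((g p.1 : ℂ) + 1) / ((t : ℂ) + 1))) := by
    funext p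
    rw [hxC]
    push_cast
    rw [div_eq_mul_inv]
  rw [h1] at hmain
  exact hmain

/-- few near relations in short windows -/
theorem window_log (d n : ℕ) : ∃ E B : ℕ, ∀ H₁ t : ℕ, (H₁ + 2) ^ E ≤ t → ∃ H₀ : ℝ, ∀ H : ℝ, H₀ ≤ H →
    ∀ (J : Type) [Fintype J], Fintype.card J = n → ∀ ξ : J → ℂ, ∀ S : Finset ℕ, (∀ g ∈ S, g ≤ H₁ ∧
      RelA ξ (fun l : Unit → Fin (d + 1) => ∏ k : Unit, ((Real.log ((t - g : ℕ) : ℝ) : ℝ) : ℂ) ^ (l k : ℕ)) H
        (H ^ B)⁻¹) → S.card ≤ n * (d + 1) := by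
  classical
  set N : ℕ := n * (d + 1) + 1 with hN
  choose Ef Bf hlow using fun D : ℕ => lowInt N D (by omega)
  obtain ⟨Dm, B', helim⟩ := elim_rel Bf Unit d (n * (d + 1))
  refine ⟨∑ D ∈ Finset.range (Dm + 1), (Ef D + 1), 2 * B' + 1, fun H₁ t hHt => ?_⟩
  have hE1 : ∑ D ∈ Finset.range (Dm + 1), (Ef D + 1) ≠ 0 := by
    rw [Finset.sum_range_succ]
    omega
  have ht : H₁ + 2 ≤ t := (Nat.le_self_pow hE1 _).trans hHt
  have hEf : ∀ D ≤ Dm, (H₁ + 2) ^ Ef D ≤ t := by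
    intro D hD
    refine (Nat.pow_le_pow_right (by omega) ?_).trans hHt
    have h1 : Ef D + 1 ≤ ∑ D ∈ Finset.range (Dm + 1), (Ef D + 1) :=
      Finset.single_le_sum (f := fun D => Ef D + 1) (fun _ _ => Nat.zero_le _)
        (Finset.mem_range.2 (Nat.lt_succ_of_le hD))
    omega
  -- the threshold for one configuration
  have hone : ∀ g : Fin N → Fin (H₁ + 1), Function.Injective g → ∃ H₀ : ℝ, ∀ H : ℝ, H₀ ≤ H →
      ∀ (J : Type) [Fintype J], Fintype.card J = n * (d + 1) → ∀ ξ : J → ℂ,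
      ¬ ∀ i : Fin N, RelA ξ (fun l : Unit → Fin (d + 1) => ∏ k : Unit,
        (Complex.log (1 - (((g i : ℕ) : ℂ) + 1) / ((t : ℂ) + 1))) ^ (l k : ℕ)) H (H ^ B')⁻¹ := by
    intro g hg
    obtain ⟨H₀, hH₀⟩ := helim (Fin N) (fun p : Fin N × Unit => Complex.log (1 - (((g p.1 : ℕ) : ℂ) + 1) / ((t : ℂ) + 1)))
      (fun D hD => hlow D H₁ t (fun i => (g i : ℕ)) (hEf D hD) (fun i => by have := (g i).2; omega)
        (fun i j hij => hg (Fin.ext hij)))
    refine ⟨H₀, fun H hH J _ hJ ξ hcon => ?_⟩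
    refine hH₀ H hH J hJ ξ Finset.univ ?_ fun i _ => hcon i
    rw [Finset.card_univ, Fintype.card_fin]
    omega
  choose! Hg hHg using hone
  set Λ : ℝ := (d + 1) * 2 ^ d * (max 1 ‖((Real.log ((t : ℝ) + 1) : ℝ) : ℂ)‖) ^ d with hΛ
  set H₀ : ℝ := ∑ g : Fin N → Fin (H₁ + 1), |Hg g| with hH₀
  refine ⟨max (max 1 (2 ^ d)) (max Λ H₀), fun H hH J _ hJ ξ S hS => ?_⟩
  have hH1 : 1 ≤ H := (le_max_left _ _).trans ((le_max_left _ _).trans hH)
  have hH2 : 2 ^ d ≤ H := (le_max_right _ _).trans ((le_max_left _ _).trans hH)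
  have hHΛ : Λ ≤ H := (le_max_left _ _).trans ((le_max_right _ _).trans hH)
  have hHH : H₀ ≤ H := (le_max_right _ _).trans ((le_max_right _ _).trans hH)
  have hHp : 0 < H := by linarith
  by_contra hcard
  push Not at hcard
  obtain ⟨S', hS'S, hS'c⟩ := Finset.exists_subset_card_eq (show N ≤ S.card by omega)
  set e := S'.orderEmbOfFin hS'c with he
  have heS : ∀ i, (e i) ∈ S := fun i => hS'S (Finset.orderEmbOfFin_mem S' hS'c i)
  set g : Fin N → Fin (H₁ + 1) := fun i => ⟨e i, by have := (hS (e i) (heS i)).1; omega⟩ with hg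
  have hginj : Function.Injective g := by
    intro i j hij
    have h1 : e i = e j := congrArg Fin.val hij
    exact e.injective h1
  have hHgH : Hg g ≤ H ^ 2 := by
    have h1 := Finset.single_le_sum (f := fun g : Fin N → Fin (H₁ + 1) => |Hg g|) (fun _ _ => abs_nonneg _)
      (Finset.mem_univ g)
    have h2 : H ≤ H ^ 2 := by nlinarith
    calc Hg g ≤ |Hg g| := le_abs_self _
      _ ≤ H₀ := h1
      _ ≤ H := hHH
      _ ≤ H ^ 2 := h2
  refine hHg g hginj (H ^ 2) hHgH (J × Fin (d + 1)) (by rw [Fintype.card_prod, Fintype.card_fin, hJ])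
    (fun p => ξ p.1 * ((Real.log ((t : ℝ) + 1) : ℝ) : ℂ) ^ (p.2 : ℕ)) fun i => ?_
  have hgi : (g i : ℕ) = e i := rfl
  have hgt : (g i : ℕ) + 2 ≤ t := by have := (g i).2; omega
  have hlog : ((Real.log ((t - e i : ℕ) : ℝ) : ℝ) : ℂ) = ((Real.log ((t : ℝ) + 1) : ℝ) : ℂ) +
      Complex.log (1 - (((g i : ℕ) : ℂ) + 1) / ((t : ℂ) + 1)) := by
    have h1 : (1 - (((g i : ℕ) : ℂ) + 1) / ((t : ℂ) + 1)) = ((1 - (((g i : ℕ) : ℝ) + 1) / ((t : ℝ) + 1) : ℝ) : ℂ) := by
      push_cast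
      rfl
    have h2 : (0 : ℝ) < (t : ℝ) + 1 := by positivity
    have h3 : (((g i : ℕ) : ℝ) + 1) / ((t : ℝ) + 1) < 1 := by
      rw [div_lt_one h2]
      have : ((g i : ℕ) : ℝ) + 2 ≤ t := by exact_mod_cast hgt
      linarith
    rw [h1, ← Complex.ofReal_log (by linarith), ← Complex.ofReal_add, ← Real.log_mul h2.ne' (by linarith)]
    congr 2
    rw [← hgi, Nat.cast_sub (by omega)]
    field_simp
    ring
  have hr := (hS (e i) (heS i)).2
  simp only [hlog] at hr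
  have hsh := shift d ξ _ _ H ((H ^ (2 * B' + 1))⁻¹) hHp.le (by positivity) hr
  refine hsh.mono ?_ ?_
  · calc 2 ^ d * H ≤ H * H := mul_le_mul_of_nonneg_right hH2 hHp.le
      _ = H ^ 2 := by ring
  · rw [← hΛ, ← pow_mul, pow_succ, mul_inv, mul_assoc]
    have h1 : H⁻¹ * Λ ≤ 1 := by
      rw [inv_mul_le_iff₀ hHp, mul_one]
      exact hHΛ
    calc (H ^ (2 * B'))⁻¹ * (H⁻¹ * Λ) ≤ (H ^ (2 * B'))⁻¹ * 1 := mul_le_mul_of_nonneg_left h1 (by positivity)
      _ = _ := mul_one _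

end Pool.Agent.Q246.NR
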