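import Pool.Agent.Y113.W.Count
import Pool.Agent.Q246.NR.WinLog
import Pool.Agent.Q246.NR.Multi

/-!
# Logarithms of integers: few near relations with arbitrary constants
-/

set_option autoImplicit false

namespace Pool.Agent.Q246.NR

/-- logarithms of integers -/
theorem oneVar_log : OneVar (fun T => Finset.Icc 2 T) (fun (x : ℕ) (_ : Unit) => ((Real.log (x : ℝ) : ℝ) : ℂ)) := by
  classical
  intro d n
  obtain ⟨E, B, hw⟩ := window_log d n
  obtain ⟨c, hc0, hc1, C, hC0, hcount⟩ := Pool.Agent.Y113.count_windows (n * (d + 1)) (E + 2)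
  refine ⟨B, C, c, hC0, hc0, fun T hT => ?_⟩
  choose! Hf hHf using hw
  set H₀ : ℝ := ∑ p ∈ Finset.range (T + 1) ×ˢ Finset.range (2 * T + 1), |Hf p.1 p.2| with hH₀
  refine ⟨H₀, fun H hH J _ hJ ξ Y hY hrel => ?_⟩
  set Bad : ℕ → Prop := fun p => p ≤ T ∧
    RelA ξ (fun l : Unit → Fin (d + 1) => ∏ k : Unit, ((Real.log (p : ℝ) : ℝ) : ℂ) ^ (l k : ℕ)) H (H ^ B)⁻¹ with hBad
  have h1 := hcount Bad (by
    intro H₁ t hHt S hS
    rcases S.eq_empty_or_nonempty with hSe | ⟨g₀, hg₀⟩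
    · rw [hSe, Finset.card_empty]
      exact Nat.zero_le _
    have hg₀' := hS g₀ hg₀
    have hsq : (H₁ + 2) ^ 2 ≤ t := (Nat.pow_le_pow_right (by omega) (by omega)).trans hHt
    have htT : t ≤ T + H₁ := by
      have h2 := hg₀'.1
      have h3 := hg₀'.2.1
      omega
    have hH₁T : H₁ ≤ T := by nlinarith
    have hH : Hf H₁ t ≤ H := by
      have h2 := Finset.single_le_sum (f := fun p : ℕ × ℕ => |Hf p.1 p.2|) (fun _ _ => abs_nonneg _)
        (show (H₁, t) ∈ Finset.range (T + 1) ×ˢ Finset.range (2 * T + 1) by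
          rw [Finset.mem_product, Finset.mem_range, Finset.mem_range]
          exact ⟨by omega, by omega⟩)
      exact (le_abs_self _).trans (h2.trans hH)
    exact hHf H₁ t ((Nat.pow_le_pow_right (by omega) (by omega)).trans hHt) H hH J hJ ξ S
      (fun g hg => ⟨(hS g hg).1, (hS g hg).2.2⟩)) T hT
  refine le_trans ?_ h1
  have h2 : Y ⊆ (Finset.Icc 2 T).filter Bad := by
    intro x hx
    have hxY := hY hx
    rw [Finset.mem_filter]
    exact ⟨hxY, (Finset.mem_Icc.1 hxY).2, hrel x hx⟩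
  have h3 : (Y.card : ℝ) ≤ (((Finset.Icc 2 T).filter Bad).card : ℝ) := by exact_mod_cast Finset.card_le_card h2
  refine h3.trans (le_of_eq ?_)
  congr!

/-- logarithms of several integers -/
theorem multi_log (k d n : ℕ) : ∃ (B : ℕ) (C c : ℝ), 0 ≤ C ∧ 0 < c ∧ ∀ T : ℕ, 1 ≤ T → ∃ H₀ : ℝ, ∀ H : ℝ, H₀ ≤ H →
    ∀ (J : Type) [Fintype J], Fintype.card J = n → ∀ ξ : J → ℂ,
      ∀ Y ⊆ Fintype.piFinset (fun _ : Fin k => Finset.Icc 2 T),
        (∀ x ∈ Y, RelA ξ (fun e : Fin k → Unit → Fin (d + 1) =>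
          mg (fun _ (x : ℕ) _ => ((Real.log (x : ℝ) : ℝ) : ℂ)) x e) H (H ^ B)⁻¹) →
        (Y.card : ℝ) ≤ C * (T : ℝ) ^ ((k : ℝ) - c) :=
  multi k (fun _ T => Finset.Icc 2 T) (fun _ (x : ℕ) _ => ((Real.log (x : ℝ) : ℝ) : ℂ)) (fun _ => oneVar_log)
    (fun _ T => by rw [Nat.card_Icc]; omega) d n

end Pool.Agent.Q246.NR
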