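import Pool.Agent.Y419.AL.Valc
import Pool.Agent.Q246.NR.GK

/-!
# Lower bounds for polynomials of arbitrary height in the values at an algebraic point
-/

set_option autoImplicit false

open PowerSeries

namespace Pool.Agent.Q246.NR

open Pool.Agent.Y113 Pool.Agent.Y916 Pool.Agent.Y916.Al Pool.Agent.Y535.LG Pool.Agent.Y419.AL

/-- the coefficient vectors of the multiples of a polynomial with integral coefficients -/
lemma vec_int {n Δ D : ℕ} {K : IntermediateField ℚ ℂ} (P : MvPolynomial (Fin n) K) (h : ℝ) (hh : 0 ≤ h)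
    (hP : ∀ d, IsIntegral ℤ (P.coeff d)) (hPh : ∀ d (σ : K →+* ℂ), ‖σ (P.coeff d)‖ ≤ h) (e' : Mn n D)
    (e : Mn n (D + Δ)) : IsIntegral ℤ (vec P (D + Δ) e' e) ∧ ∀ σ : K →+* ℂ, ‖σ (vec P (D + Δ) e' e)‖ ≤ h := by
  rw [vec, MvPolynomial.coeff_mul_monomial']
  split_ifs with h1
  · rw [mul_one]
    exact ⟨hP _, hPh _⟩
  · refine ⟨isIntegral_zero, fun σ => ?_⟩
    rw [map_zero, norm_zero]
    exact hh

theorem valcN (n Δ m A : ℕ) : ∃ E B : ℕ, ∀ (H : ℕ) (T : Polynomial ℤ) (K : IntermediateField ℚ ℂ) (x : K) (X : ℝ),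
    FiniteDimensional ℚ K → Module.finrank ℚ K ≤ m → x ≠ 0 → Pt K x X → ‖(x : ℂ)‖ * ((H : ℝ) + 2) ^ E ≤ 1 →
    X * ‖(x : ℂ)‖ ^ A ≤ 1 → T.coeff 0 = 1 → T.natDegree = n → Squarefree (T.map (Int.castRingHom ℚ)) →
    (∀ l, |T.coeff l| ≤ H) → ∃ c : ℝ, 0 < c ∧ ∀ (P : MvPolynomial (Fin n) K) (h : ℝ), P ≠ 0 → P.totalDegree ≤ Δ →
    1 ≤ h → (∀ d, IsIntegral ℤ (P.coeff d)) → (∀ d (σ : K →+* ℂ), ‖σ (P.coeff d)‖ ≤ h) →
    c ≤ ‖MvPolynomial.aeval (fun s : Fin n => evc (x : ℂ) (F T s)) P‖ * h ^ B := by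
  obtain ⟨D, hD⟩ := exists_D n Δ (2 * A * m)
  obtain ⟨E₀, hE₀⟩ := Pool.Agent.Y419.LB.base_holds n
  obtain ⟨E₁, hE₁⟩ := t_mon n n (D + Δ)
  obtain ⟨E₂, Bx, hE₂⟩ := GKN m A (Fintype.card (Mn n (D + Δ))) n
  refine ⟨((E₀ + 1) * E₁ + 1) * E₂ + (n + 1) + (E₀ + 1), Bx,
    fun H T K x X hfd hrk hx0 hPt hxE hXA h0 hd hsq hH => ?_⟩
  have hB : (1 : ℝ) ≤ (H : ℝ) + 2 := one_le_base H
  have hH0 : (0 : ℝ) ≤ H := by positivity
  have hxR : ∀ a, a ≤ ((E₀ + 1) * E₁ + 1) * E₂ + (n + 1) + (E₀ + 1) →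
      ‖(x : ℂ)‖ * ((H : ℝ) + 2) ^ a ≤ 1 := fun a ha =>
    (mul_le_mul_of_nonneg_left (pow_le_pow_right₀ hB ha) (norm_nonneg _)).trans hxE
  have hxp : 0 < ‖(x : ℂ)‖ := by
    rw [norm_pos_iff]
    exact_mod_cast hx0
  have hG := hE₀ H T h0 hd.le hH
  have hG2 := (hE₁ _ T (fun s : Fin n => F T s) hG).mono le_rfl (pow_base H _ _)
  -- enumeration
  let eqv : Fin (Fintype.card (Mn n (D + Δ))) ≃ Mn n (D + Δ) := (Fintype.equivFin _).symm
  let eqv' : Fin (Fintype.card (Mn n D)) ≃ Mn n D := (Fintype.equivFin _).symm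
  let e₀ : Mn n (D + Δ) := ⟨fun _ => 0, by simp⟩
  -- convergence
  have hcv : ∀ s : Fin n, Cvc (x : ℂ) (F T s) := by
    intro s
    refine Cvc.of_bound (A := ((H : ℝ) + 2) ^ E₀) (B := ((H : ℝ) + 2) ^ E₀) (by positivity) ?_
      fun m => ?_
    · refine lt_of_lt_of_le ?_ (hxR (E₀ + 1) (by omega))
      rw [mul_comm]
      refine mul_lt_mul_of_pos_left ?_ hxp
      exact pow_lt_pow_right₀ (by linarith) (by omega)
    · have := hG.size (some s) m
      rw [pow_succ'] at this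
      rw [Complex.norm_ratCast]
      exact this
  have hmo : ∀ e : Mn n (D + Δ), evc (x : ℂ) (mo (fun s : Fin n => F T s) (D + Δ) e) =
      ∏ s : Fin n, (evc (x : ℂ) (F T s)) ^ (e.1 s : ℕ) := by
    intro e
    unfold mo
    rw [Cvc.ev_prod _ _ fun s _ => (hcv s).pow _]
    exact Finset.prod_congr rfl fun s _ => (hcv s).ev_pow _
  obtain ⟨c, hc, hGK⟩ := hE₂ _ T (fun j => mo (fun s : Fin n => F T s) (D + Δ) (eqv j)) (eqv.symm e₀) K x X hfd hrk hx0
    hPt (hG2.reindex eqv) (by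
      rw [Equiv.apply_symm_apply]
      simp [mo, e₀]) ((Pool.Agent.Y796.LI.t_LI n (D + Δ) T h0 hd hsq).comp _ eqv.injective)
    ((mul_le_mul_of_nonneg_left (pow_base H _ _) (norm_nonneg _)).trans (hxR _ (by omega))) hXA
    (T_ne' h0 hd hH (hxR _ (by omega)))
  -- the size of the monomials
  set V : ℝ := 1 + ∑ s : Fin n, ‖evc (x : ℂ) (F T s)‖ with hV
  have hV1 : 1 ≤ V := by
    have : 0 ≤ ∑ s : Fin n, ‖evc (x : ℂ) (F T s)‖ := Finset.sum_nonneg fun _ _ => norm_nonneg _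
    linarith
  have hVs : ∀ s : Fin n, ‖evc (x : ℂ) (F T s)‖ ≤ V := by
    intro s
    have := Finset.single_le_sum (f := fun s : Fin n => ‖evc (x : ℂ) (F T s)‖) (fun _ _ => norm_nonneg _)
      (Finset.mem_univ s)
    linarith
  have hVD : 0 < V ^ D := by positivity
  refine ⟨c / V ^ D, by positivity, fun PK h hPK0 hPKd hh1 hPi hPh => ?_⟩
  set v : Fin n → ℂ := fun s : Fin n => evc (x : ℂ) (F T s) with hv
  have hmain := hGK (Fintype.card (Mn n D)) (fun r j => vec PK (D + Δ) (eqv' r) (eqv j)) h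
    (‖MvPolynomial.aeval v PK‖ * V ^ D) (by
      rw [Fintype.linearIndependent_iff]
      intro g hg r
      have h1 := vec_indep (D := D) PK hPK0 hPKd (fun e' => g (eqv'.symm e')) (by
        intro e
        have h2 := congrFun hg (eqv.symm e)
        rw [Finset.sum_apply] at h2
        rw [← Equiv.sum_comp eqv']
        simp only [Pi.smul_apply, smul_eq_mul, Equiv.apply_symm_apply, Pi.zero_apply] at h2
        simp only [Equiv.symm_apply_apply]
        exact h2) (eqv' r)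
      simpa using h1)
    (fun r j => (vec_int PK h (by linarith) hPi hPh _ _).1) hh1 (by positivity)
    (fun r j σ => (vec_int PK h (by linarith) hPi hPh _ _).2 σ) (by
      intro r
      have h1 : MvPolynomial.aeval v (PK * MvPolynomial.monomial (toF (eqv' r)) (1 : K)) =
          MvPolynomial.aeval v PK * ∏ s : Fin n, v s ^ ((eqv' r).1 s : ℕ) := by
        rw [map_mul]
        congr 1
        rw [MvPolynomial.aeval_monomial, map_one, one_mul, Finsupp.prod_fintype _ _ (fun _ => pow_zero _)]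
        rfl
      have h2 : (PK * MvPolynomial.monomial (toF (eqv' r)) (1 : K)).totalDegree ≤ D + Δ := by
        refine (MvPolynomial.totalDegree_mul _ _).trans ?_
        have := deg_toF (eqv' r) (1 : K)
        omega
      rw [aeval_sum' _ h2] at h1
      rw [Equiv.sum_comp eqv (fun e => ((vec PK (D + Δ) (eqv' r) e : K) : ℂ) *
        evc (x : ℂ) (mo (fun s : Fin n => F T s) (D + Δ) e))]
      simp only [hmo]
      have h3 : ∑ e : Mn n (D + Δ), ((vec PK (D + Δ) (eqv' r) e : K) : ℂ) *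
          ∏ s : Fin n, (evc (x : ℂ) (F T s)) ^ (e.1 s : ℕ) = MvPolynomial.aeval v PK * ∏ s : Fin n, v s ^ ((eqv' r).1 s : ℕ) := h1
      rw [h3, norm_mul]
      refine mul_le_mul_of_nonneg_left ?_ (norm_nonneg _)
      rw [norm_prod]
      calc ∏ s : Fin n, ‖v s ^ ((eqv' r).1 s : ℕ)‖ ≤ ∏ s : Fin n, V ^ ((eqv' r).1 s : ℕ) := by
            refine Finset.prod_le_prod (fun _ _ => norm_nonneg _) fun s _ => ?_
            rw [norm_pow]
            exact pow_le_pow_left₀ (norm_nonneg _) (hVs s) _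
        _ = V ^ (∑ s : Fin n, ((eqv' r).1 s : ℕ)) := by rw [Finset.prod_pow_eq_pow_sum]
        _ ≤ V ^ D := pow_le_pow_right₀ hV1 (eqv' r).2) hD
  rw [div_le_iff₀ hVD]
  calc c ≤ ‖MvPolynomial.aeval v PK‖ * V ^ D * h ^ Bx := hmain
    _ = _ := by ring

end Pool.Agent.Q246.NR
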